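import Pool.Agent.Helper42.VR.Defs

/-!
# The center of the cube at `r = (n + 1) / 2`: Hadamard matrices
-/

set_option autoImplicit false

namespace Pool.Agent.Helper42.VR

open Finset

/-- If the center is covered for `r = (n + 1) / 2` then there is a Hadamard matrix of order
`n + 1`. -/
theorem hadamard_of_center {n : ℕ} (h : CenterCovered n (((n : ℝ) + 1) / 2)) :
    HadamardExists (n + 1) := by
  classical
  obtain ⟨w, ⟨hw0, hw1, hwr⟩, hf⟩ := h
  set S : Set (Fin n → ℝ) := pt '' {a | w a ≠ 0} with hS
  have hmem : (fun _ => (1 / 2 : ℝ)) ∈ convexHull ℝ S := by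
    have h1 : ∑ a ∈ univ.filter (fun a => w a ≠ 0), w a • pt a = fun _ => (1 / 2 : ℝ) := by
      rw [← hf]
      funext i
      rw [Finset.sum_apply]
      unfold fmap
      rw [Finset.sum_filter]
      refine Finset.sum_congr rfl fun a _ => ?_
      by_cases ha : w a = 0 <;> simp [ha]
    rw [← h1]
    apply (convex_convexHull ℝ S).sum_mem
    · intro a _
      exact hw0 a
    · rw [← hw1, Finset.sum_filter]
      refine Finset.sum_congr rfl fun a _ => ?_
      by_cases ha : w a = 0 <;> simp [ha]
    · intro a ha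
      rw [Finset.mem_filter] at ha
      exact subset_convexHull ℝ S ⟨a, ha.2, rfl⟩
  obtain ⟨ι, hι, z, w', hz, haff, hw'0, hw'1, hw'z⟩ := eq_pos_convex_span_of_mem_convexHull hmem
  have hα : ∀ k, ∃ a, w a ≠ 0 ∧ pt a = z k := fun k => by
    have := hz (Set.mem_range_self k)
    rw [hS] at this
    exact this
  choose α hα1 hα2 using hα
  have hcard : Fintype.card ι ≤ n + 1 := by
    have h1 := haff.card_le_finrank_succ
    have h2 := Submodule.finrank_le (vectorSpan ℝ (Set.range z))
    have h3 : Module.finrank ℝ (Fin n → ℝ) = n := by simp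
    omega
  set G : ι → ι → ℝ := fun i k => 1 + ∑ j, sg (α i) j * sg (α k) j with hG
  have hG0 : ∀ i k, 0 ≤ G i k := by
    intro i k
    simp only [hG]
    rw [sum_sg_mul]
    have := hwr (α i) (α k) (hα1 i) (hα1 k)
    linarith
  have hGd : ∀ i, G i i = n + 1 := by
    intro i
    simp only [hG, sg_mul_self]
    simp
    ring
  have hsum0 : ∀ j, ∑ i, w' i * sg (α i) j = 0 := by
    intro j
    have h1 : ∑ i, w' i * pt (α i) j = 1 / 2 := by
      have := congrFun hw'z j
      rw [Finset.sum_apply] at this
      rw [← this]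
      refine Finset.sum_congr rfl fun i _ => ?_
      rw [hα2]
      rfl
    have h2 : ∑ i, w' i * sg (α i) j = 2 * (∑ i, w' i * pt (α i) j) - ∑ i, w' i := by
      rw [Finset.mul_sum, ← Finset.sum_sub_distrib]
      refine Finset.sum_congr rfl fun i _ => ?_
      unfold sg
      ring
    rw [h2, h1, hw'1]
    norm_num
  have hrow : ∀ k, ∑ i, w' i * G i k = 1 := by
    intro k
    simp only [hG, mul_add, mul_one, Finset.sum_add_distrib, hw'1]
    have : ∑ i, w' i * ∑ j, sg (α i) j * sg (α k) j = 0 := by
      calc ∑ i, w' i * ∑ j, sg (α i) j * sg (α k) j =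
            ∑ j, (∑ i, w' i * sg (α i) j) * sg (α k) j := by
            simp only [Finset.mul_sum, Finset.sum_mul]
            rw [Finset.sum_comm]
            refine Finset.sum_congr rfl fun i _ => Finset.sum_congr rfl fun a _ => ?_
            ring
        _ = 0 := by simp [hsum0]
    rw [this, add_zero]
  have htotal : ∑ k, ∑ i, w' i * G i k = Fintype.card ι := by
    simp [hrow]
  have hdiag : ∑ k, w' k * G k k = n + 1 := by
    simp only [hGd, ← Finset.sum_mul, hw'1, one_mul]
  have hsplit : ∑ k, ∑ i, w' i * G i k =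
      ∑ k, w' k * G k k + ∑ k, ∑ i ∈ univ.erase k, w' i * G i k := by
    rw [← Finset.sum_add_distrib]
    refine Finset.sum_congr rfl fun k _ => ?_
    exact (Finset.add_sum_erase univ (fun i => w' i * G i k) (Finset.mem_univ k)).symm
  have hoffnn : ∀ k, 0 ≤ ∑ i ∈ univ.erase k, w' i * G i k := fun k =>
    Finset.sum_nonneg fun i _ => mul_nonneg (hw'0 i).le (hG0 i k)
  have hcard' : (Fintype.card ι : ℝ) ≤ n + 1 := by exact_mod_cast hcard
  have hoff0 : ∑ k, ∑ i ∈ univ.erase k, w' i * G i k = 0 := by
    have h1 : 0 ≤ ∑ k, ∑ i ∈ univ.erase k, w' i * G i k := Finset.sum_nonneg fun k _ => hoffnn k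
    rw [hsplit, hdiag] at htotal
    linarith
  have hcardeq : Fintype.card ι = n + 1 := by
    rw [hsplit, hdiag, hoff0, add_zero] at htotal
    exact_mod_cast htotal.symm
  have horth : ∀ i k, i ≠ k → G i k = 0 := by
    intro i k hik
    have h1 := (Finset.sum_eq_zero_iff_of_nonneg (fun k _ => hoffnn k)).1 hoff0 k (mem_univ k)
    have h2 := (Finset.sum_eq_zero_iff_of_nonneg
      (fun i _ => mul_nonneg (hw'0 i).le (hG0 i k))).1 h1 i (by simp [hik])
    rcases mul_eq_zero.1 h2 with h3 | h3
    · exact absurd h3 (hw'0 i).ne'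
    · exact h3
  -- the matrix
  let e : Fin (n + 1) ≃ ι := (Fintype.equivFinOfCardEq hcardeq).symm
  let H : Matrix (Fin (n + 1)) (Fin (n + 1)) ℤ := fun i j =>
    Fin.cases 1 (fun j' => if α (e i) j' then 1 else -1) j
  have hH0 : ∀ i, H i 0 = 1 := fun i => rfl
  have hHs : ∀ i (j : Fin n), H i j.succ = if α (e i) j then 1 else -1 := fun i j => rfl
  refine ⟨H, ?_, ?_⟩
  · intro i j
    refine Fin.cases ?_ (fun j' => ?_) j
    · left
      rfl
    · rw [hHs]
      by_cases h : α (e i) j' <;> simp [h]
  · ext i k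
    rw [Matrix.mul_apply, Fin.sum_univ_succ]
    simp only [Matrix.transpose_apply, hH0, hHs, mul_one, Matrix.smul_apply, smul_eq_mul]
    have hcast : (((1 : ℤ) + ∑ j, (if α (e i) j then 1 else -1) *
        (if α (e k) j then 1 else -1) : ℤ) : ℝ) = G (e i) (e k) := by
      simp only [hG]
      push_cast
      congr 1
      refine Finset.sum_congr rfl fun j _ => ?_
      unfold sg pt
      cases α (e i) j <;> cases α (e k) j <;> norm_num
    by_cases hik : i = k
    · subst hik
      rw [hGd] at hcast
      rw [Matrix.one_apply_eq, mul_one]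
      exact_mod_cast hcast
    · rw [horth _ _ (fun h => hik (e.injective h))] at hcast
      rw [Matrix.one_apply_ne hik, mul_zero]
      exact_mod_cast hcast

/-- A Hadamard matrix of order `n + 1` gives a simplex of diameter `(n + 1) / 2` containing the
center. -/
theorem center_of_hadamard {n : ℕ} (h : HadamardExists (n + 1)) :
    CenterCovered n (((n : ℝ) + 1) / 2) := by
  classical
  obtain ⟨H, hH1, hH2⟩ := h
  set R : Matrix (Fin (n + 1)) (Fin (n + 1)) ℝ := fun i j => (H i j : ℝ) with hR
  have hn0 : (0 : ℝ) < (n : ℝ) + 1 := by positivity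
  have hrow : ∀ i k, ∑ j, R i j * R k j = if i = k then (n : ℝ) + 1 else 0 := by
    intro i k
    have h1 : ∑ j, H i j * H k j = if i = k then (n : ℤ) + 1 else 0 := by
      have := congrFun (congrFun hH2 i) k
      rw [Matrix.mul_apply] at this
      simp only [Matrix.transpose_apply, Matrix.smul_apply, smul_eq_mul, Matrix.one_apply] at this
      rw [this]
      split_ifs <;> simp
    have h2 : ((∑ j, H i j * H k j : ℤ) : ℝ) = ((if i = k then (n : ℤ) + 1 else 0 : ℤ) : ℝ) := by
      rw [h1]
    push_cast at h2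
    simp only [hR]
    rw [h2]
  have hmul : R * (((n : ℝ) + 1)⁻¹ • R.transpose) = 1 := by
    ext i k
    rw [Matrix.mul_apply]
    simp only [Matrix.smul_apply, Matrix.transpose_apply, smul_eq_mul]
    have : ∑ j, R i j * (((n : ℝ) + 1)⁻¹ * R k j) = ((n : ℝ) + 1)⁻¹ * ∑ j, R i j * R k j := by
      rw [Finset.mul_sum]
      refine Finset.sum_congr rfl fun j _ => ?_
      ring
    rw [this, hrow, Matrix.one_apply]
    split_ifs
    · exact inv_mul_cancel₀ hn0.ne'
    · simp
  have hmul' : (((n : ℝ) + 1)⁻¹ • R.transpose) * R = 1 := mul_eq_one_comm.1 hmul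
  have hcol : ∀ j l, j ≠ l → ∑ i, R i j * R i l = 0 := by
    intro j l hjl
    have h1 := congrFun (congrFun hmul' j) l
    rw [Matrix.mul_apply, Matrix.one_apply_ne hjl] at h1
    simp only [Matrix.smul_apply, Matrix.transpose_apply, smul_eq_mul, mul_assoc] at h1
    rw [← Finset.mul_sum] at h1
    rcases mul_eq_zero.1 h1 with h2 | h2
    · exact absurd h2 (inv_pos.2 hn0).ne'
    · exact h2
  have hR1 : ∀ i j, R i j = 1 ∨ R i j = -1 := by
    intro i j
    simp only [hR]
    rcases hH1 i j with h | h <;> rw [h] <;> simp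
  let v : Fin (n + 1) → Fin n → Bool := fun i j => decide (H i j.succ = H i 0)
  have hsv : ∀ i j, sg (v i) j = R i 0 * R i j.succ := by
    intro i j
    by_cases hc : H i j.succ = H i 0
    · have hv : v i j = true := by simp [v, hc]
      simp only [sg, pt, hv, if_true, hR, hc]
      rcases hH1 i 0 with h | h <;> rw [h] <;> norm_num
    · have hv : v i j = false := by simp [v, hc]
      simp only [sg, pt, hv, hR]
      rcases hH1 i 0 with h | h <;> rcases hH1 i j.succ with h' | h' <;>
        rw [h, h'] at hc ⊢ <;> simp at hc ⊢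
  have hdist : ∀ i k, ∑ j, |pt (v i) j - pt (v k) j| ≤ ((n : ℝ) + 1) / 2 := by
    intro i k
    by_cases hik : i = k
    · subst hik
      simp only [sub_self, abs_zero, Finset.sum_const_zero]
      positivity
    · have h1 := sum_sg_mul (v i) (v k)
      have h2 : ∑ j, sg (v i) j * sg (v k) j = R i 0 * R k 0 * (∑ j : Fin n, R i j.succ * R k j.succ) := by
        rw [Finset.mul_sum]
        refine Finset.sum_congr rfl fun j _ => ?_
        rw [hsv, hsv]
        ring
      have h3 : R i 0 * R k 0 + ∑ j : Fin n, R i j.succ * R k j.succ = 0 := by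
        have := hrow i k
        rw [if_neg hik, Fin.sum_univ_succ] at this
        exact this
      have h4 : ∑ j : Fin n, R i j.succ * R k j.succ = -(R i 0 * R k 0) := by linarith
      rw [h4] at h2
      have h5 : R i 0 * R k 0 * -(R i 0 * R k 0) = -1 := by
        rcases hR1 i 0 with h | h <;> rcases hR1 k 0 with h' | h' <;> rw [h, h'] <;> norm_num
      rw [h5] at h2
      linarith
  refine ⟨fun a => ∑ i, if v i = a then ((n : ℝ) + 1)⁻¹ else 0, ⟨?_, ?_, ?_⟩, ?_⟩
  · intro a
    apply Finset.sum_nonneg
    intro i _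
    split_ifs
    · positivity
    · exact le_rfl
  · rw [Finset.sum_comm]
    simp only [Finset.sum_ite_eq, Finset.mem_univ, if_true, Finset.sum_const, Finset.card_univ,
      Fintype.card_fin, nsmul_eq_mul]
    push_cast
    exact mul_inv_cancel₀ hn0.ne'
  · intro a b ha hb
    obtain ⟨i, _, hi⟩ := Finset.exists_ne_zero_of_sum_ne_zero ha
    obtain ⟨k, _, hk⟩ := Finset.exists_ne_zero_of_sum_ne_zero hb
    have hi' : v i = a := by
      by_contra hne
      simp [hne] at hi
    have hk' : v k = b := by
      by_contra hne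
      simp [hne] at hk
    rw [← hi', ← hk']
    exact hdist i k
  · funext j
    unfold fmap
    simp only [Finset.sum_mul]
    rw [Finset.sum_comm]
    have h1 : ∀ i, ∑ a, (if v i = a then ((n : ℝ) + 1)⁻¹ else 0) * pt a j =
        ((n : ℝ) + 1)⁻¹ * pt (v i) j := by
      intro i
      simp only [ite_mul, zero_mul, Finset.sum_ite_eq, Finset.mem_univ, if_true]
    simp only [h1, ← Finset.mul_sum]
    have h2 : ∀ i, pt (v i) j = (1 + R i 0 * R i j.succ) / 2 := by
      intro i
      have := hsv i j
      unfold sg at this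
      linarith
    simp only [h2, ← Finset.sum_div, Finset.sum_add_distrib]
    rw [hcol 0 j.succ (Fin.succ_ne_zero j).symm]
    simp only [Finset.sum_const, Finset.card_univ, Fintype.card_fin, nsmul_eq_mul]
    push_cast
    field_simp
    ring

theorem centerCovered_iff_hadamard {n : ℕ} :
    CenterCovered n (((n : ℝ) + 1) / 2) ↔ HadamardExists (n + 1) :=
  ⟨hadamard_of_center, center_of_hadamard⟩

end Pool.Agent.Helper42.VR
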