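import Pool.Agent.Helper42.VR.Cov
import Pool.Agent.Helper42.VR.Hadamard

/-!
# At the least scale a covered center has a covered ball
-/

set_option autoImplicit false

namespace Pool.Agent.Helper42.VR

open Finset

/-- The normalised rows of a Hadamard matrix of order `n + 1`. -/
theorem rows_of_hadamard {n : ℕ} (h : HadamardExists (n + 1)) :
    ∃ v : Fin (n + 1) → Fin n → ℝ, (∀ i j, v i j = 1 ∨ v i j = -1) ∧
      (∀ i k, i ≠ k → ∑ j, v i j * v k j = -1) ∧ (∀ j, ∑ i, v i j = 0) ∧
      ∀ j l, ∑ i, v i j * v i l = if j = l then (n : ℝ) + 1 else 0 := by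
  classical
  obtain ⟨H, hH1, hH2⟩ := h
  set R : Matrix (Fin (n + 1)) (Fin (n + 1)) ℝ := fun i j => (H i j : ℝ) with hR
  have hn0 : (0 : ℝ) < (n : ℝ) + 1 := by positivity
  have hrow : ∀ i k, ∑ j, R i j * R k j = if i = k then (n : ℝ) + 1 else 0 := by
    intro i k
    have h1 : ∑ j, H i j * H k j = if i = k then (n : ℤ) + 1 else 0 := by
      have := congrFun (congrFun hH2 i) k
      rw [Matrix.mul_apply] at this
      simp only [Matrix.transpose_apply, Matrix.smul_apply, smul_eq_mul, Matrix.one_apply] at this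
      rw [this]
      split_ifs <;> simp
    have h2 : ((∑ j, H i j * H k j : ℤ) : ℝ) = ((if i = k then (n : ℤ) + 1 else 0 : ℤ) : ℝ) := by
      rw [h1]
    push_cast at h2
    simp only [hR]
    rw [h2]
  have hmul : R * (((n : ℝ) + 1)⁻¹ • R.transpose) = 1 := by
    ext i k
    rw [Matrix.mul_apply]
    simp only [Matrix.smul_apply, Matrix.transpose_apply, smul_eq_mul]
    have : ∑ j, R i j * (((n : ℝ) + 1)⁻¹ * R k j) = ((n : ℝ) + 1)⁻¹ * ∑ j, R i j * R k j := by
      rw [Finset.mul_sum]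
      refine Finset.sum_congr rfl fun j _ => ?_
      ring
    rw [this, hrow, Matrix.one_apply]
    split_ifs
    · exact inv_mul_cancel₀ hn0.ne'
    · simp
  have hmul' : (((n : ℝ) + 1)⁻¹ • R.transpose) * R = 1 := mul_eq_one_comm.1 hmul
  have hcol : ∀ j l, ∑ i, R i j * R i l = if j = l then (n : ℝ) + 1 else 0 := by
    intro j l
    have h1 := congrFun (congrFun hmul' j) l
    rw [Matrix.mul_apply, Matrix.one_apply] at h1
    simp only [Matrix.smul_apply, Matrix.transpose_apply, smul_eq_mul, mul_assoc] at h1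
    rw [← Finset.mul_sum, inv_mul_eq_iff_eq_mul₀ hn0.ne'] at h1
    rw [h1]
    split_ifs <;> ring
  have hR1 : ∀ i j, R i j = 1 ∨ R i j = -1 := by
    intro i j
    simp only [hR]
    rcases hH1 i j with h | h <;> rw [h] <;> simp
  have hRsq : ∀ i j, R i j * R i j = 1 := fun i j => by
    rcases hR1 i j with h | h <;> rw [h] <;> norm_num
  refine ⟨fun i j => R i 0 * R i j.succ, ?_, ?_, ?_, ?_⟩
  · intro i j
    show R i 0 * R i j.succ = 1 ∨ R i 0 * R i j.succ = -1
    rcases hR1 i 0 with h | h <;> rcases hR1 i j.succ with h' | h' <;> rw [h, h'] <;> norm_num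
  · intro i k hik
    have h2 : ∑ j : Fin n, R i 0 * R i j.succ * (R k 0 * R k j.succ)
        = R i 0 * R k 0 * (∑ j : Fin n, R i j.succ * R k j.succ) := by
      rw [Finset.mul_sum]
      refine Finset.sum_congr rfl fun j _ => ?_
      ring
    have h3 : R i 0 * R k 0 + ∑ j : Fin n, R i j.succ * R k j.succ = 0 := by
      have := hrow i k
      rw [if_neg hik, Fin.sum_univ_succ] at this
      exact this
    have h4 : ∑ j : Fin n, R i j.succ * R k j.succ = -(R i 0 * R k 0) := by linarith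
    rw [h2, h4]
    have h5 := hRsq i 0
    have h6 := hRsq k 0
    calc R i 0 * R k 0 * -(R i 0 * R k 0) = -((R i 0 * R i 0) * (R k 0 * R k 0)) := by ring
      _ = -1 := by rw [h5, h6]; norm_num
  · intro j
    rw [hcol 0 j.succ, if_neg (Fin.succ_ne_zero j).symm]
  · intro j l
    have h1 : ∀ i, R i 0 * R i j.succ * (R i 0 * R i l.succ) = R i j.succ * R i l.succ := by
      intro i
      calc R i 0 * R i j.succ * (R i 0 * R i l.succ)
          = (R i 0 * R i 0) * (R i j.succ * R i l.succ) := by ring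
        _ = _ := by rw [hRsq, one_mul]
    simp only [h1]
    rw [hcol]
    simp only [Fin.succ_inj]

/-- The point `y` is covered if `∑ |⟨y, vᵢ⟩ / (n + 1) - t| ≤ 1` for some `t`. -/
theorem cov_of_rows {n : ℕ} {v : Fin (n + 1) → Fin n → ℝ} (h1 : ∀ i j, v i j = 1 ∨ v i j = -1)
    (h2 : ∀ i k, i ≠ k → ∑ j, v i j * v k j = -1) (h3 : ∀ j, ∑ i, v i j = 0)
    (h4 : ∀ j l, ∑ i, v i j * v i l = if j = l then (n : ℝ) + 1 else 0) (y : Fin n → ℝ)
    (t₀ : ℝ) (ht : ∑ i, |(∑ j, y j * v i j) / ((n : ℝ) + 1) - t₀| ≤ 1) : Cov (Fin n) 1 y := by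
  classical
  have hn0 : (0 : ℝ) < (n : ℝ) + 1 := by positivity
  set a : Fin (n + 1) → ℝ := fun i => (∑ j, y j * v i j) / ((n : ℝ) + 1) with ha
  let g : ℝ → ℝ := fun t => ∑ i, |a i - t|
  have hg : Continuous g := by
    apply continuous_finsetSum
    intro i _
    exact (continuous_const.sub continuous_id).abs
  have hbig : (1 : ℝ) ≤ g (t₀ + 2) := by
    have h5 : ∀ i ∈ (univ : Finset (Fin (n + 1))), 2 - |a i - t₀| ≤ |a i - (t₀ + 2)| := by
      intro i _
      have := abs_sub_abs_le_abs_sub (2 : ℝ) (a i - t₀)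
      rw [abs_of_pos (by norm_num : (0 : ℝ) < 2)] at this
      have h6 : |2 - (a i - t₀)| = |a i - (t₀ + 2)| := by
        rw [abs_sub_comm]
        congr 1
        ring
      rw [h6] at this
      exact this
    have h7 := Finset.sum_le_sum h5
    rw [Finset.sum_sub_distrib, Finset.sum_const, Finset.card_univ, Fintype.card_fin] at h7
    have h8 : (2 : ℝ) ≤ (n + 1) • (2 : ℝ) := by
      rw [nsmul_eq_mul]
      push_cast
      nlinarith [Nat.cast_nonneg (α := ℝ) n]
    simp only [g]
    linarith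
  obtain ⟨t, -, hgt⟩ : (1 : ℝ) ∈ g '' Set.Icc t₀ (t₀ + 2) :=
    intermediate_value_Icc (by linarith) hg.continuousOn ⟨ht, hbig⟩
  have hsg : ∀ i, (if 0 ≤ a i - t then (1 : ℝ) else -1) * |a i - t| = a i - t := by
    intro i
    split_ifs with h
    · rw [abs_of_nonneg h, one_mul]
    · rw [abs_of_neg (not_le.1 h)]; ring
  refine ⟨Fin (n + 1), inferInstance, fun i => |a i - t|,
    fun i j => (if 0 ≤ a i - t then 1 else -1) * v i j, fun i => abs_nonneg _, hgt, ?_, ?_, ?_⟩
  · intro i j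
    show (if 0 ≤ a i - t then (1 : ℝ) else -1) * v i j = 1 ∨
      (if 0 ≤ a i - t then (1 : ℝ) else -1) * v i j = -1
    split_ifs <;> rcases h1 i j with h | h <;> rw [h] <;> norm_num
  · intro j
    have h5 : ∀ i, |a i - t| * ((if 0 ≤ a i - t then 1 else -1) * v i j)
        = a i * v i j - t * v i j := by
      intro i
      calc |a i - t| * ((if 0 ≤ a i - t then 1 else -1) * v i j)
          = ((if 0 ≤ a i - t then 1 else -1) * |a i - t|) * v i j := by ring
        _ = _ := by rw [hsg]; ring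
    simp only [h5]
    rw [Finset.sum_sub_distrib, ← Finset.mul_sum, h3, mul_zero, sub_zero]
    have h6 : ∀ i, a i * v i j = (∑ l, y l * (v i l * v i j)) / ((n : ℝ) + 1) := by
      intro i
      simp only [ha]
      rw [div_mul_eq_mul_div, Finset.sum_mul]
      congr 1
      exact Finset.sum_congr rfl fun l _ => by ring
    simp only [h6]
    rw [← Finset.sum_div, Finset.sum_comm]
    simp only [← Finset.mul_sum, h4, mul_ite, mul_zero, Finset.sum_ite_eq', mem_univ, if_true]
    field_simp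
  · intro i k _ _
    have h5 : ∀ j, (if 0 ≤ a i - t then (1 : ℝ) else -1) * v i j
        * ((if 0 ≤ a k - t then (1 : ℝ) else -1) * v k j)
        = ((if 0 ≤ a i - t then (1 : ℝ) else -1) * (if 0 ≤ a k - t then (1 : ℝ) else -1))
          * (v i j * v k j) := fun j => by ring
    simp only [h5]
    rw [← Finset.mul_sum]
    by_cases hik : i = k
    · subst hik
      have h6 : (0 : ℝ) ≤ ∑ j, v i j * v i j := Finset.sum_nonneg fun j _ => mul_self_nonneg _
      split_ifs <;> nlinarith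
    · rw [h2 i k hik]
      split_ifs <;> norm_num

/-- **A ball around the center.** -/
theorem ball_of_center {n : ℕ} (h : CenterCovered n (((n : ℝ) + 1) / 2)) {r : ℝ}
    (hr : ((n : ℝ) + 1) / 2 ≤ r) {x : Fin n → ℝ} (hx : ∑ i, (x i - 1 / 2) ^ 2 ≤ 1 / 4) :
    ∃ w ∈ VRReal n r, fmap w = x := by
  classical
  obtain ⟨v, h1, h2, h3, h4⟩ := rows_of_hadamard (centerCovered_iff_hadamard.1 h)
  have hn0 : (0 : ℝ) < (n : ℝ) + 1 := by positivity
  apply exists_vr (D := 1) (by linarith)
  set y : Fin n → ℝ := fun i => 2 * x i - 1 with hy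
  have hy2 : ∑ j, y j ^ 2 ≤ 1 := by
    have : ∑ j, y j ^ 2 = 4 * ∑ i, (x i - 1 / 2) ^ 2 := by
      rw [Finset.mul_sum]
      refine Finset.sum_congr rfl fun j _ => ?_
      simp only [hy]
      ring
    linarith
  apply cov_of_rows h1 h2 h3 h4 y 0
  simp only [sub_zero]
  set a : Fin (n + 1) → ℝ := fun i => (∑ j, y j * v i j) / ((n : ℝ) + 1) with ha
  -- Parseval
  have h5 : ∑ i, a i ^ 2 = (∑ j, y j ^ 2) / ((n : ℝ) + 1) := by
    have h6 : ∀ i, a i ^ 2 = (∑ j, ∑ l, y j * y l * (v i j * v i l)) / ((n : ℝ) + 1) ^ 2 := by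
      intro i
      simp only [ha]
      rw [div_pow, sq (∑ j, y j * v i j), Finset.sum_mul_sum]
      congr 1
      refine Finset.sum_congr rfl fun j _ => Finset.sum_congr rfl fun l _ => ?_
      ring
    simp only [h6]
    rw [← Finset.sum_div, Finset.sum_comm]
    have h7 : ∀ j, ∑ i, ∑ l, y j * y l * (v i j * v i l) = ((n : ℝ) + 1) * y j ^ 2 := by
      intro j
      rw [Finset.sum_comm]
      simp only [← Finset.mul_sum, h4, mul_ite, mul_zero, Finset.sum_ite_eq, mem_univ, if_true]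
      ring
    simp only [h7]
    rw [← Finset.mul_sum]
    field_simp
  have h8 : (∑ i, |a i|) ^ 2 ≤ ((n : ℝ) + 1) * ∑ i, a i ^ 2 := by
    have := sq_sum_le_card_mul_sum_sq (s := (univ : Finset (Fin (n + 1)))) (f := fun i => |a i|)
    simp only [sq_abs, Finset.card_univ, Fintype.card_fin] at this
    push_cast at this
    exact this
  rw [h5] at h8
  have h9 : ((n : ℝ) + 1) * ((∑ j, y j ^ 2) / ((n : ℝ) + 1)) = ∑ j, y j ^ 2 := by
    field_simp
  rw [h9] at h8
  have h10 : (∑ i, |a i|) ^ 2 ≤ 1 := le_trans h8 hy2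
  have h11 : 0 ≤ ∑ i, |a i| := Finset.sum_nonneg fun i _ => abs_nonneg _
  nlinarith

end Pool.Agent.Helper42.VR
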