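import Pool.Agent.Helper42.VR.Cov

/-!
# Points all of whose coordinates are bounded away from the center

Every point `x` of the cube is an average of `p` points `z^s` all of whose coordinates but a few
are `0` or `1`; the positions of the coordinates are chosen by random affine maps of `ZMod p`.
-/

set_option autoImplicit false

namespace Pool.Agent.Helper42.VR

open Finset

/-- The group of affine maps of `ZMod p`. -/
abbrev Aff (p : ℕ) := (ZMod p)ˣ × ZMod p

/-- The affine map `s ↦ c s + d`. -/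
def af {p : ℕ} (t : Aff p) (s : ZMod p) : ZMod p := (t.1 : ZMod p) * s + t.2

/-- The affine map as a bijection. -/
def afE {p : ℕ} (t : Aff p) : ZMod p ≃ ZMod p := (Units.mulLeft t.1).trans (Equiv.addRight t.2)

theorem afE_apply {p : ℕ} (t : Aff p) (s : ZMod p) : afE t s = af t s := rfl

/-- `u` and `v` lie on the same side of `a`. -/
def Good {p : ℕ} (a : ℕ) (u v : ZMod p) : Prop :=
  (u.val < a ∧ v.val < a) ∨ (a < u.val ∧ a < v.val)

instance {p : ℕ} (a : ℕ) (u v : ZMod p) : Decidable (Good a u v) := by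
  unfold Good; infer_instance

/-- The number of elements of `ZMod p` with `val < a`. -/
theorem card_lt {p : ℕ} [NeZero p] (a : ℕ) (ha : a < p) :
    (univ.filter (fun u : ZMod p => u.val < a)).card = a := by
  have : (univ.filter (fun u : ZMod p => u.val < a)).image (fun u => u.val) = Finset.range a := by
    ext m
    simp only [mem_image, mem_filter, mem_univ, true_and, mem_range]
    constructor
    · rintro ⟨u, hu, rfl⟩; exact hu
    · intro hm
      refine ⟨(m : ZMod p), ?_, ?_⟩ <;> rw [ZMod.val_cast_of_lt (by omega)]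
      exact hm
  have h2 := congrArg Finset.card this
  rw [card_image_of_injective _ (ZMod.val_injective p), card_range] at h2
  exact h2

theorem card_gt {p : ℕ} [NeZero p] (a : ℕ) (ha : a < p) :
    (univ.filter (fun u : ZMod p => a < u.val)).card = p - 1 - a := by
  have h1 := card_lt (p := p) a ha
  have h2 : (univ.filter (fun u : ZMod p => u.val = a)).card = 1 := by
    rw [Finset.card_eq_one]
    refine ⟨(a : ZMod p), ?_⟩
    ext u
    simp only [mem_filter, mem_univ, true_and, mem_singleton]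
    constructor
    · intro h; rw [← h, ZMod.natCast_zmod_val]
    · rintro rfl; exact ZMod.val_cast_of_lt ha
  have h3 : (univ.filter (fun u : ZMod p => u.val < a)).card
      + (univ.filter (fun u : ZMod p => ¬ u.val < a)).card = p := by
    have := Finset.card_filter_add_card_filter_not (s := (univ : Finset (ZMod p)))
      (fun u : ZMod p => u.val < a)
    rw [this, Finset.card_univ, ZMod.card]
  have h4 : (univ.filter (fun u : ZMod p => ¬ u.val < a)).card
      = (univ.filter (fun u : ZMod p => u.val = a)).card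
        + (univ.filter (fun u : ZMod p => a < u.val)).card := by
    rw [← Finset.card_union_of_disjoint]
    · congr 1
      ext u
      simp only [mem_filter, mem_univ, true_and, mem_union]
      omega
    · rw [Finset.disjoint_left]
      intro u
      simp only [mem_filter, mem_univ, true_and]
      omega
  omega

/-- Two points are moved to any two distinct points by some affine map. -/
theorem exists_aff {p : ℕ} [Fact p.Prime] {s s' : ZMod p} (h : s ≠ s') {u v : ZMod p}
    (huv : u ≠ v) : ∃ t : Aff p, af t s = u ∧ af t s' = v := by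
  have h1 : s - s' ≠ 0 := sub_ne_zero.2 h
  have h2 : u - v ≠ 0 := sub_ne_zero.2 huv
  refine ⟨(Units.mk0 ((u - v) / (s - s')) (div_ne_zero h2 h1), u - (u - v) / (s - s') * s), ?_, ?_⟩
  · simp [af]
  · simp only [af, Units.val_mk0]
    field_simp
    ring

/-- The number of affine maps that are good for a pair. -/
theorem card_good {p : ℕ} [Fact p.Prime] (a : ℕ) (ha : a < p) {s s' : ZMod p} (h : s ≠ s') :
    (((p : ℝ) - 1) * ((p : ℝ) - 3) + (2 * a - p + 1) ^ 2) / 2
      ≤ ((univ.filter (fun t : Aff p => Good a (af t s) (af t s'))).card : ℝ) := by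
  have : NeZero p := ⟨(Fact.out : p.Prime).ne_zero⟩
  set A := univ.filter (fun u : ZMod p => u.val < a) with hA
  set B := univ.filter (fun u : ZMod p => a < u.val) with hB
  have hAB : Disjoint A.offDiag B.offDiag := by
    rw [Finset.disjoint_left]
    rintro ⟨u, v⟩ h1 h2
    simp only [hA, hB, mem_offDiag, mem_filter, mem_univ, true_and] at h1 h2
    omega
  have h1 : (A.offDiag ∪ B.offDiag).card
      ≤ (univ.filter (fun t : Aff p => Good a (af t s) (af t s'))).card := by
    apply Finset.card_le_card_of_surjOn (fun t : Aff p => (af t s, af t s'))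
    rintro ⟨u, v⟩ huv
    simp only [hA, hB, coe_union, Set.mem_union, mem_coe, mem_offDiag, mem_filter, mem_univ,
      true_and] at huv
    have hne : u ≠ v := by tauto
    obtain ⟨t, ht1, ht2⟩ := exists_aff h hne
    refine ⟨t, ?_, by simp [ht1, ht2]⟩
    rw [mem_coe, mem_filter]
    refine ⟨mem_univ _, ?_⟩
    rw [ht1, ht2]
    unfold Good
    tauto
  rw [Finset.card_union_of_disjoint hAB, Finset.offDiag_card, Finset.offDiag_card,
    card_lt a ha, card_gt a ha] at h1
  obtain ⟨b, hb⟩ : ∃ b, p - 1 - a = b := ⟨_, rfl⟩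
  rw [hb] at h1
  have hp : p = a + b + 1 := by omega
  have h3 : a ≤ a * a := Nat.le_mul_self a
  have h4 : b ≤ b * b := Nat.le_mul_self b
  have h5 : a * a + b * b ≤
      (univ.filter (fun t : Aff p => Good a (af t s) (af t s'))).card + (a + b) := by omega
  have h6 : (a : ℝ) * a + (b : ℝ) * b ≤
      ((univ.filter (fun t : Aff p => Good a (af t s) (af t s'))).card : ℝ) + (a + b) := by
    exact_mod_cast h5
  have h7 : (p : ℝ) = a + b + 1 := by exact_mod_cast hp
  rw [h7]
  nlinarith

theorem card_aff {p : ℕ} [Fact p.Prime] : Fintype.card (Aff p) = (p - 1) * p := by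
  rw [Fintype.card_prod, ZMod.card_units_eq_totient, ZMod.card,
    Nat.totient_prime (Fact.out : p.Prime)]

theorem exp_neg_le {l : ℝ} (hl : 0 ≤ l) : Real.exp (-l) ≤ 1 - l + l ^ 2 / 2 := by
  have h1 := Real.quadratic_le_exp_of_nonneg hl
  have h2 : 0 < 1 + l + l ^ 2 / 2 := by positivity
  rw [Real.exp_neg]
  calc (Real.exp l)⁻¹ ≤ (1 + l + l ^ 2 / 2)⁻¹ := by gcongr
    _ ≤ 1 - l + l ^ 2 / 2 := by
        rw [inv_le_iff_one_le_mul₀ h2]
        nlinarith [sq_nonneg (l ^ 2), sq_nonneg l]

/-- The inner average. -/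
theorem sum_exp_le {T : Type} [Fintype T] (G : T → Prop) [DecidablePred G] {q : ℝ}
    (h : (Fintype.card T : ℝ) * q ≤ ((univ.filter G).card : ℝ)) {l : ℝ} (hl : 0 ≤ l) :
    ∑ t : T, Real.exp (-l * (if G t then 1 else 0))
      ≤ (Fintype.card T : ℝ) * Real.exp (-q * (1 - Real.exp (-l))) := by
  have h1 : ∑ t : T, Real.exp (-l * (if G t then 1 else 0))
      = (Fintype.card T : ℝ) - ((univ.filter G).card : ℝ) * (1 - Real.exp (-l)) := by
    have h2 : ∀ t : T, Real.exp (-l * (if G t then 1 else 0))
        = 1 - (if G t then 1 else 0) * (1 - Real.exp (-l)) := by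
      intro t
      split_ifs <;> simp
    simp only [h2]
    rw [Finset.sum_sub_distrib, ← Finset.sum_mul, Finset.sum_const, Finset.card_univ,
      Finset.card_filter]
    push_cast
    simp
  have hl1 : 0 ≤ 1 - Real.exp (-l) := by
    have : Real.exp (-l) ≤ 1 := Real.exp_le_one_iff.2 (by linarith)
    linarith
  have hT0 : (0 : ℝ) ≤ (Fintype.card T : ℝ) := by positivity
  rw [h1]
  calc (Fintype.card T : ℝ) - ((univ.filter G).card : ℝ) * (1 - Real.exp (-l))
      ≤ (Fintype.card T : ℝ)
        - (Fintype.card T : ℝ) * q * (1 - Real.exp (-l)) := by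
        have := mul_le_mul_of_nonneg_right h hl1
        linarith
    _ = (Fintype.card T : ℝ) * (-q * (1 - Real.exp (-l)) + 1) := by ring
    _ ≤ _ := by
        gcongr
        exact Real.add_one_le_exp _

/-- **The random choice**, abstractly: if for each of at most `m ^ 2` tests `π` and each
coordinate the proportion of good parameters is at least `q`, then some choice of parameters
has, for each test, at least `q n - √(2 n (2 log m + 1))` good coordinates. -/
theorem exists_choice {κ T ι : Type} [Fintype κ] [DecidableEq κ] [Fintype T] [Nonempty T]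
    (P : Finset ι) {m n : ℕ} (hκ : Fintype.card κ = n)
    (hm : 1 ≤ m) (hP : P.card ≤ m ^ 2) (hn : 1 ≤ n) (G : κ → ι → T → Prop)
    [∀ i π, DecidablePred (G i π)] {q : ℝ} (hq0 : 0 ≤ q) (hq1 : q ≤ 1)
    (hG : ∀ i, ∀ π ∈ P, (Fintype.card T : ℝ) * q ≤ ((univ.filter (G i π)).card : ℝ)) :
    ∃ t : κ → T, ∀ π ∈ P, q * n - Real.sqrt (2 * n * (2 * Real.log m + 1))
      ≤ ((univ.filter (fun i => G i π (t i))).card : ℝ) := by
  set D : ℝ := Real.sqrt (2 * n * (2 * Real.log m + 1)) with hD
  set l : ℝ := D / n with hl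
  have hm' : (1 : ℝ) ≤ m := by exact_mod_cast hm
  have hn' : (0 : ℝ) < n := by exact_mod_cast hn
  have hlog : 0 ≤ Real.log m := Real.log_nonneg (by linarith)
  have hD0 : 0 ≤ D := Real.sqrt_nonneg _
  have hD2 : D ^ 2 = 2 * n * (2 * Real.log m + 1) := Real.sq_sqrt (by positivity)
  have hl0 : 0 ≤ l := by positivity
  -- the number of good coordinates
  let X : (κ → T) → ι → ℝ := fun t π => ((univ.filter (fun i => G i π (t i))).card : ℝ)
  have hX : ∀ t π, X t π = ∑ i, (if G i π (t i) then (1 : ℝ) else 0) := by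
    intro t π
    simp only [X]
    rw [Finset.card_filter]
    push_cast
    rfl
  set N : ℝ := (Fintype.card T : ℝ) with hN
  have hNpos : 0 < N := by
    rw [hN]
    exact_mod_cast Fintype.card_pos
  -- the average for one test
  have hpair : ∀ π ∈ P, ∑ t : κ → T, Real.exp (-l * (X t π - (q * n - D)))
        ≤ N ^ n * Real.exp (-(2 * Real.log m + 1)) := by
    intro π hπ
    have h1 : ∀ t : κ → T, Real.exp (-l * (X t π - (q * n - D)))
        = Real.exp (l * (q * n - D))
          * ∏ i, Real.exp (-l * (if G i π (t i) then 1 else 0)) := by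
      intro t
      rw [← Real.exp_sum, ← Finset.mul_sum, ← hX, ← Real.exp_add]
      congr 1
      ring
    simp only [h1]
    rw [← Finset.mul_sum]
    have h2 : ∑ t : κ → T, ∏ i, Real.exp (-l * (if G i π (t i) then 1 else 0))
        = ∏ i, ∑ τ : T, Real.exp (-l * (if G i π τ then 1 else 0)) := by
      rw [Finset.prod_univ_sum, Fintype.piFinset_univ]
    rw [h2]
    have h3 : ∏ i : κ, ∑ τ : T, Real.exp (-l * (if G i π τ then 1 else 0))
        ≤ ∏ _i : κ, (N * Real.exp (-q * (1 - Real.exp (-l)))) := by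
      apply Finset.prod_le_prod
      · intro i _
        exact Finset.sum_nonneg fun τ _ => (Real.exp_pos _).le
      · intro i _
        exact sum_exp_le (G i π) (hG i π hπ) hl0
    rw [Finset.prod_const, Finset.card_univ, hκ, mul_pow, ← Real.exp_nat_mul] at h3
    calc Real.exp (l * (q * n - D)) * ∏ i : κ, ∑ τ : T,
          Real.exp (-l * (if G i π τ then 1 else 0))
        ≤ Real.exp (l * (q * n - D)) * (N ^ n * Real.exp (n * (-q * (1 - Real.exp (-l))))) := by
          gcongr
      _ = N ^ n * Real.exp (l * (q * n - D) + n * (-q * (1 - Real.exp (-l)))) := by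
          rw [Real.exp_add]; ring
      _ ≤ N ^ n * Real.exp (-(2 * Real.log m + 1)) := by
          gcongr
          have h4 := exp_neg_le hl0
          have h5 : l * (q * n - D) + n * (-q * (1 - Real.exp (-l)))
              ≤ n * q * (l ^ 2 / 2) - l * D := by
            have : n * q * (Real.exp (-l)) ≤ n * q * (1 - l + l ^ 2 / 2) := by gcongr
            nlinarith
          have h6 : n * q * (l ^ 2 / 2) ≤ n * 1 * (l ^ 2 / 2) := by gcongr
          have h7 : n * 1 * (l ^ 2 / 2) - l * D = -(2 * Real.log m + 1) := by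
            have h8 : n * 1 * (l ^ 2 / 2) - l * D = - (D ^ 2 / (2 * n)) := by
              rw [hl]
              field_simp
              ring
            rw [h8, hD2]
            field_simp
          linarith
  -- the total
  have htotal : ∑ t : κ → T, ∑ π ∈ P, Real.exp (-l * (X t π - (q * n - D)))
      < ∑ t : κ → T, (1 : ℝ) := by
    rw [Finset.sum_comm]
    have h1 : ∑ π ∈ P, ∑ t : κ → T, Real.exp (-l * (X t π - (q * n - D)))
        ≤ ∑ π ∈ P, N ^ n * Real.exp (-(2 * Real.log m + 1)) := by
      apply Finset.sum_le_sum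
      intro π hπ
      exact hpair π hπ
    refine lt_of_le_of_lt h1 ?_
    rw [Finset.sum_const, Finset.sum_const, Finset.card_univ, Fintype.card_fun, hκ]
    simp only [nsmul_eq_mul, mul_one]
    have h2 : (Real.exp (-(2 * Real.log m + 1))) = (m : ℝ)⁻¹ ^ 2 * Real.exp (-1) := by
      rw [neg_add, Real.exp_add, Real.exp_neg, show (2 : ℝ) * Real.log m = ((2 : ℕ) : ℝ) * Real.log m
        by norm_num, Real.exp_nat_mul, Real.exp_log (by linarith), inv_pow]
    rw [h2]
    have h3 : (P.card : ℝ) ≤ (m : ℝ) ^ 2 := by exact_mod_cast hP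
    have h4 : Real.exp (-1) < 1 := by
      rw [Real.exp_lt_one_iff]; norm_num
    have h5 : (P.card : ℝ) * (N ^ n * ((m : ℝ)⁻¹ ^ 2 * Real.exp (-1)))
        ≤ (m : ℝ) ^ 2 * (N ^ n * ((m : ℝ)⁻¹ ^ 2 * Real.exp (-1))) := by gcongr
    have h6 : (m : ℝ) ^ 2 * (N ^ n * ((m : ℝ)⁻¹ ^ 2 * Real.exp (-1))) = N ^ n * Real.exp (-1) := by
      have : (m : ℝ) ≠ 0 := by linarith
      field_simp
    have h7 : N ^ n * Real.exp (-1) < N ^ n * 1 := by
      have : 0 < N ^ n := by positivity
      gcongr
    push_cast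
    rw [← hN]
    linarith
  obtain ⟨t, -, ht⟩ := Finset.exists_lt_of_sum_lt htotal
  refine ⟨t, fun π hπ => ?_⟩
  have h1 : Real.exp (-l * (X t π - (q * n - D))) ≤ ∑ π ∈ P,
      Real.exp (-l * (X t π - (q * n - D))) :=
    Finset.single_le_sum (f := fun π : ι =>
      Real.exp (-l * (X t π - (q * n - D)))) (fun P _ => (Real.exp_pos _).le) hπ
  have h2 : Real.exp (-l * (X t π - (q * n - D))) < 1 := lt_of_le_of_lt h1 ht
  rw [Real.exp_lt_one_iff] at h2
  by_contra hcon
  push Not at hcon
  have h3 : X t π - (q * n - D) < 0 := by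
    simp only [X]
    linarith
  nlinarith

/-- The random choice for affine maps and biased coordinates. -/
theorem exists_good {κ : Type} [Fintype κ] [DecidableEq κ] {n p : ℕ} [Fact p.Prime]
    (hκ : Fintype.card κ = n) {δ : ℝ} (hδ0 : 0 < δ) (hδ1 : δ ≤ 1) (hp : 12 ≤ p * δ ^ 2)
    (hn : 1 ≤ n) (a : κ → ℕ) (ha : ∀ i, a i < p) (hab : ∀ i, (p : ℝ) * δ - 1 ≤ 2 * a i - p + 1) :
    ∃ t : κ → Aff p, ∀ s s' : ZMod p, s ≠ s' →
      (1 / 2 + δ ^ 2 / 4) * n - Real.sqrt (2 * n * (2 * Real.log p + 1))
        ≤ ((univ.filter (fun i => Good (a i) (af (t i) s) (af (t i) s'))).card : ℝ) := by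
  have hδ2 : δ ^ 2 ≤ δ := by nlinarith
  have hδ2' : δ ^ 2 ≤ 1 := by nlinarith
  have hp0 : (0 : ℝ) ≤ p := by positivity
  have hp12 : (12 : ℝ) ≤ p := by nlinarith
  have hp3 : 12 ≤ p := by exact_mod_cast hp12
  have hP : ((univ : Finset (ZMod p)).offDiag).card ≤ p ^ 2 := by
    rw [Finset.offDiag_card, Finset.card_univ, ZMod.card, sq]
    omega
  have hT : (Fintype.card (Aff p) : ℝ) = ((p : ℝ) - 1) * p := by
    rw [card_aff]
    push_cast [Nat.cast_sub (show 1 ≤ p by omega)]
    ring
  obtain ⟨t, ht⟩ := exists_choice (T := Aff p) ((univ : Finset (ZMod p)).offDiag) hκ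
    (m := p) (by omega) hP hn (fun i π τ => Good (a i) (af τ π.1) (af τ π.2))
    (q := 1 / 2 + δ ^ 2 / 4) (by positivity) (by linarith)
    (by
      intro i π hπ
      have hgood := card_good (a i) (ha i) (mem_offDiag.1 hπ).2.2
      rw [hT]
      refine le_trans ?_ hgood
      have h1 : ((p : ℝ) * δ - 1) ^ 2 ≤ (2 * a i - p + 1) ^ 2 := by
        have h2 : 0 ≤ (p : ℝ) * δ - 1 := by nlinarith
        exact pow_le_pow_left₀ h2 (hab i) 2
      have h3 : (0 : ℝ) ≤ (p * δ ^ 2 - 12) * p := by
        apply mul_nonneg <;> linarith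
      nlinarith)
  exact ⟨t, fun s s' hss => ht (s, s') (mem_offDiag.2 ⟨mem_univ s, mem_univ s', hss⟩)⟩

/-! ### The product weights -/

/-- The product weight of a vertex at the point `z` of the cube. -/
noncomputable def pw {κ : Type} [Fintype κ] (z : κ → ℝ) (a : κ → Bool) : ℝ :=
  ∏ i, (if a i then z i else 1 - z i)

theorem pw_nonneg {κ : Type} [Fintype κ] {z : κ → ℝ} (hz : ∀ i, 0 ≤ z i ∧ z i ≤ 1)
    (a : κ → Bool) : 0 ≤ pw z a := by
  unfold pw
  apply Finset.prod_nonneg
  intro i _
  split_ifs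
  · exact (hz i).1
  · linarith [(hz i).2]

theorem sum_pw {κ : Type} [Fintype κ] [DecidableEq κ] (z : κ → ℝ) : ∑ a, pw z a = 1 := by
  unfold pw
  have h := Finset.prod_univ_sum (fun _ : κ => (univ : Finset Bool))
    (fun (i : κ) (b : Bool) => if b then z i else 1 - z i)
  rw [Fintype.piFinset_univ] at h
  rw [← h]
  apply Finset.prod_eq_one
  intro i _
  simp

theorem sum_pw_mul {κ : Type} [Fintype κ] [DecidableEq κ] (z : κ → ℝ) (i : κ) :
    ∑ a, pw z a * (if a i then 1 else 0) = z i := by
  unfold pw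
  have h := Finset.prod_univ_sum (fun _ : κ => (univ : Finset Bool))
    (fun (j : κ) (b : Bool) => (if b then z j else 1 - z j)
      * (if j = i then (if b then 1 else 0) else 1))
  rw [Fintype.piFinset_univ] at h
  have h1 : ∀ a : κ → Bool, (∏ j, (if a j then z j else 1 - z j)) * (if a i then 1 else 0)
      = ∏ j, ((if a j then z j else 1 - z j) * (if j = i then (if a j then 1 else 0) else 1)) := by
    intro a
    rw [Finset.prod_mul_distrib, Finset.prod_ite_eq']
    simp
  simp only [h1]
  rw [← h]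
  rw [Finset.prod_eq_single i]
  · simp
  · intro j _ hj
    simp [hj]
  · intro hi
    exact absurd (mem_univ i) hi

theorem pw_ne_zero {κ : Type} [Fintype κ] {z : κ → ℝ} {a : κ → Bool} (h : pw z a ≠ 0) (i : κ) :
    (z i = 1 → a i = true) ∧ (z i = 0 → a i = false) := by
  unfold pw at h
  rw [Finset.prod_ne_zero_iff] at h
  have h1 := h i (mem_univ i)
  constructor
  · intro hz
    by_contra hcon
    apply h1
    simp [hcon, hz]
  · intro hz
    by_contra hcon
    apply h1
    simp [hcon, hz]

/-- The coordinate of the point `z^s`. -/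
noncomputable def zc {p : ℕ} (a : ℕ) (θ : ℝ) (u : ZMod p) : ℝ :=
  if u.val < a then 1 else if u.val = a then θ else 0

theorem zc_mem {p : ℕ} (a : ℕ) {θ : ℝ} (h0 : 0 ≤ θ) (h1 : θ ≤ 1) (u : ZMod p) :
    0 ≤ zc a θ u ∧ zc a θ u ≤ 1 := by
  unfold zc
  split_ifs <;> constructor <;> linarith

theorem sum_zc {p : ℕ} [NeZero p] (a : ℕ) (ha : a < p) (θ : ℝ) :
    ∑ u : ZMod p, zc a θ u = a + θ := by
  have h1 : ∀ u : ZMod p, zc a θ u = (if u.val < a then 1 else 0)
      + (if u = (a : ZMod p) then θ else 0) := by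
    intro u
    unfold zc
    by_cases h : u = (a : ZMod p)
    · have hv : u.val = a := by rw [h]; exact ZMod.val_cast_of_lt ha
      rw [if_neg (by omega), if_pos hv, if_neg (by omega), if_pos h, zero_add]
    · have hv : u.val ≠ a := by
        intro hv
        apply h
        rw [← hv, ZMod.natCast_zmod_val]
      simp [hv, h]
  simp only [h1]
  rw [Finset.sum_add_distrib, Finset.sum_ite_eq']
  simp only [mem_univ, if_true]
  congr 1
  rw [Finset.sum_ite, Finset.sum_const_zero, add_zero, Finset.sum_const, card_lt a ha]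
  simp

/-- **Biased coordinates.** If all coordinates of `y` have absolute value at least `δ`, then `y`
is covered with inner products at least `2 √(2 n (2 log p + 1)) - n δ² / 2`, for any prime
`p ≥ 12 / δ²`. -/
theorem cov_large {κ : Type} [Fintype κ] {n p : ℕ} [Fact p.Prime]
    (hκ : Fintype.card κ = n) {δ : ℝ} (hδ0 : 0 < δ) (hδ1 : δ ≤ 1) (hp : 12 ≤ p * δ ^ 2)
    (y : κ → ℝ) (hy : ∀ i, δ ≤ |y i| ∧ |y i| ≤ 1) {D : ℝ} (hD0 : 0 ≤ D)
    (hD : 2 * Real.sqrt (2 * n * (2 * Real.log p + 1)) - n * δ ^ 2 / 2 ≤ D) : Cov κ D y := by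
  classical
  by_cases hn0 : n = 0
  · have : IsEmpty κ := Fintype.card_eq_zero_iff.1 (hκ.trans hn0)
    exact cov_of_isEmpty hD0 y
  have hn : 1 ≤ n := Nat.one_le_iff_ne_zero.2 hn0
  apply Cov.of_abs
  have hδ2 : δ ^ 2 ≤ δ := by nlinarith
  have hp12 : (12 : ℝ) ≤ p := by
    have hp0 : (0 : ℝ) ≤ p := by positivity
    nlinarith
  have hp3 : 12 ≤ p := by exact_mod_cast hp12
  have hp0 : (0 : ℝ) < p := by linarith
  let x : κ → ℝ := fun i => (1 + |y i|) / 2
  have hx0 : ∀ i, 0 ≤ x i := fun i => by
    simp only [x]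
    have := abs_nonneg (y i)
    linarith
  have hx1 : ∀ i, x i ≤ 1 := fun i => by simp only [x]; linarith [(hy i).2]
  -- the integer and the fractional parts
  have hex : ∀ i, ∃ a : ℕ, a < p ∧ (a : ℝ) ≤ p * x i ∧ (p : ℝ) * x i ≤ a + 1 := by
    intro i
    by_cases h1 : x i = 1
    · refine ⟨p - 1, by omega, ?_, ?_⟩
      · rw [h1, Nat.cast_sub (by omega)]; norm_num
      · rw [h1, Nat.cast_sub (by omega)]; norm_num
    · have h2 : x i < 1 := lt_of_le_of_ne (hx1 i) h1
      have h3 : 0 ≤ (p : ℝ) * x i := mul_nonneg hp0.le (hx0 i)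
      refine ⟨⌊(p : ℝ) * x i⌋₊, ?_, Nat.floor_le h3, (Nat.lt_floor_add_one _).le⟩
      rw [Nat.floor_lt h3]
      nlinarith
  choose a ha1 ha2 ha3 using hex
  have hab : ∀ i, (p : ℝ) * δ - 1 ≤ 2 * a i - p + 1 := by
    intro i
    have h1 := ha3 i
    have h2 : (p : ℝ) * δ ≤ p * |y i| := by
      apply mul_le_mul_of_nonneg_left (hy i).1 hp0.le
    have h3 : (p : ℝ) * x i = (p + p * |y i|) / 2 := by simp only [x]; ring
    linarith
  obtain ⟨t, ht⟩ := exists_good hκ hδ0 hδ1 hp hn a ha1 hab
  let θ : κ → ℝ := fun i => p * x i - a i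
  have hθ0 : ∀ i, 0 ≤ θ i := fun i => by simp only [θ]; linarith [ha2 i]
  have hθ1 : ∀ i, θ i ≤ 1 := fun i => by simp only [θ]; linarith [ha3 i]
  let z : ZMod p → κ → ℝ := fun s i => zc (a i) (θ i) (af (t i) s)
  have hz : ∀ s i, 0 ≤ z s i ∧ z s i ≤ 1 := fun s i => zc_mem (a i) (hθ0 i) (hθ1 i) _
  have hzsum : ∀ i, ∑ s, z s i = p * x i := by
    intro i
    have h1 : ∑ s, z s i = ∑ u : ZMod p, zc (a i) (θ i) u := by
      simp only [z]
      exact Equiv.sum_comp (afE (t i)) (fun u => zc (a i) (θ i) u)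
    rw [h1, sum_zc (a i) (ha1 i)]
    simp only [θ]
    ring
  refine ⟨ZMod p × (κ → Bool), inferInstance, fun j => (1 / p : ℝ) * pw (z j.1) j.2,
    fun j i => 2 * (if j.2 i then 1 else 0) - 1, ?_, ?_, ?_, ?_, ?_⟩
  · intro j
    exact mul_nonneg (by positivity) (pw_nonneg (hz j.1) j.2)
  · rw [Fintype.sum_prod_type]
    simp only [← Finset.mul_sum, sum_pw, Finset.sum_const, Finset.card_univ, ZMod.card]
    simp only [nsmul_eq_mul, mul_one]
    field_simp
  · intro j i
    show 2 * (if j.2 i = true then (1 : ℝ) else 0) - 1 = 1 ∨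
      2 * (if j.2 i = true then (1 : ℝ) else 0) - 1 = -1
    split_ifs
    · left; norm_num
    · right; norm_num
  · intro i
    rw [Fintype.sum_prod_type]
    have h1 : ∀ s : ZMod p, ∑ b : κ → Bool, (1 / p : ℝ) * pw (z s) b
        * (2 * (if b i then 1 else 0) - 1) = (1 / p : ℝ) * (2 * z s i - 1) := by
      intro s
      have e1 : ∑ b : κ → Bool, (1 / p : ℝ) * pw (z s) b * (2 * (if b i then 1 else 0) - 1)
          = (1 / p : ℝ) * (2 * ∑ b, pw (z s) b * (if b i then 1 else 0) - ∑ b, pw (z s) b) := by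
        rw [Finset.mul_sum, ← Finset.sum_sub_distrib, Finset.mul_sum]
        refine Finset.sum_congr rfl fun b _ => ?_
        ring
      rw [e1, sum_pw_mul, sum_pw]
    simp only [h1]
    rw [← Finset.mul_sum, Finset.sum_sub_distrib, ← Finset.mul_sum, hzsum, Finset.sum_const,
      Finset.card_univ, ZMod.card]
    simp only [nsmul_eq_mul, mul_one, x]
    field_simp
    ring
  · rintro ⟨s, u⟩ ⟨s', v⟩ hu hv
    have hs : pw (z s) u ≠ 0 := right_ne_zero_of_mul hu
    have hs' : pw (z s') v ≠ 0 := right_ne_zero_of_mul hv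
    -- a value of `z` away from the critical one
    have hlow : ∀ (σ : ZMod p) (y : κ → Bool) (i : κ), pw (z σ) y ≠ 0 →
        (af (t i) σ).val < a i → y i = true := by
      intro σ y i hy hlt
      apply (pw_ne_zero hy i).1
      simp only [z, zc]
      rw [if_pos hlt]
    have hhigh : ∀ (σ : ZMod p) (y : κ → Bool) (i : κ), pw (z σ) y ≠ 0 →
        a i < (af (t i) σ).val → y i = false := by
      intro σ y i hy hlt
      apply (pw_ne_zero hy i).2
      simp only [z, zc]
      rw [if_neg (by omega), if_neg (by omega)]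
    -- a second index
    obtain ⟨s'', hne, hagree⟩ : ∃ s'', s ≠ s'' ∧
        ∀ i, Good (a i) (af (t i) s) (af (t i) s'') → u i = v i := by
      by_cases hss : s = s'
      · obtain ⟨s'', h1⟩ : ∃ s'' : ZMod p, s ≠ s'' := by
          refine ⟨s + 1, fun h => ?_⟩
          have h2 : (1 : ZMod p) = 0 := by
            have h3 : s + 0 = s + 1 := by rw [add_zero]; exact h
            exact (add_left_cancel h3).symm
          have : Fact (1 < p) := ⟨by omega⟩
          exact one_ne_zero h2
        refine ⟨s'', h1, ?_⟩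
        rintro i (⟨h2, -⟩ | ⟨h2, -⟩)
        · rw [hlow s u i hs h2, hlow s' v i hs' (hss ▸ h2)]
        · rw [hhigh s u i hs h2, hhigh s' v i hs' (hss ▸ h2)]
      · refine ⟨s', hss, ?_⟩
        rintro i (⟨h2, h3⟩ | ⟨h2, h3⟩)
        · rw [hlow s u i hs h2, hlow s' v i hs' h3]
        · rw [hhigh s u i hs h2, hhigh s' v i hs' h3]
    have h1 := ht s s'' hne
    -- the inner product is twice the number of agreements minus `n`
    have h2 : ∀ i, (if Good (a i) (af (t i) s) (af (t i) s'') then (2 : ℝ) else 0) - 1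
        ≤ (2 * (if u i then 1 else 0) - 1) * (2 * (if v i then 1 else 0) - 1) := by
      intro i
      by_cases hg : Good (a i) (af (t i) s) (af (t i) s'')
      · rw [if_pos hg, hagree i hg]
        split_ifs <;> norm_num
      · rw [if_neg hg]
        split_ifs <;> norm_num
    have h3 : ∑ i, ((if Good (a i) (af (t i) s) (af (t i) s'') then (2 : ℝ) else 0) - 1)
        = 2 * ((univ.filter (fun i => Good (a i) (af (t i) s) (af (t i) s''))).card : ℝ) - n := by
      rw [Finset.sum_sub_distrib, Finset.sum_const, Finset.card_univ, hκ, Finset.sum_ite,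
        Finset.sum_const_zero, add_zero, Finset.sum_const]
      simp only [nsmul_eq_mul, mul_one]
      ring
    have h4 := Finset.sum_le_sum (fun i (_ : i ∈ (univ : Finset κ)) => h2 i)
    rw [h3] at h4
    beta_reduce
    linarith

end Pool.Agent.Helper42.VR
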