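import Pool.Agent.Helper42.VR.Defs

/-!
# Averages of sign vectors with pairwise inner products at least `-D`
-/

set_option autoImplicit false

namespace Pool.Agent.Helper42.VR

open Finset

/-- `y` is a weighted average of sign vectors whose pairwise inner products are at least `-D`. -/
def Cov (ι : Type) [Fintype ι] (D : ℝ) (y : ι → ℝ) : Prop :=
  ∃ (J : Type) (_ : Fintype J) (w : J → ℝ) (v : J → ι → ℝ), (∀ j, 0 ≤ w j) ∧ ∑ j, w j = 1 ∧
    (∀ j i, v j i = 1 ∨ v j i = -1) ∧ (∀ i, ∑ j, w j * v j i = y i) ∧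
    ∀ j j', w j ≠ 0 → w j' ≠ 0 → -D ≤ ∑ i, v j i * v j' i

theorem Cov.mono {ι : Type} [Fintype ι] {D D' : ℝ} {y : ι → ℝ} (h : Cov ι D y) (hD : D ≤ D') :
    Cov ι D' y := by
  obtain ⟨J, hJ, w, v, h1, h2, h3, h4, h5⟩ := h
  exact ⟨J, hJ, w, v, h1, h2, h3, h4, fun j j' hj hj' => by linarith [h5 j j' hj hj']⟩

theorem Cov.inst {ι : Type} (i1 i2 : Fintype ι) {D : ℝ} {y : ι → ℝ} (h : @Cov ι i1 D y) :
    @Cov ι i2 D y := by
  have h1 : i1 = i2 := Subsingleton.elim i1 i2
  rw [← h1]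
  exact h

theorem Cov.reindex {ι κ : Type} [Fintype ι] [Fintype κ] (e : ι ≃ κ) {D : ℝ} {y : ι → ℝ}
    (h : Cov κ D (fun k => y (e.symm k))) : Cov ι D y := by
  obtain ⟨J, hJ, w, v, h1, h2, h3, h4, h5⟩ := h
  refine ⟨J, hJ, w, fun j i => v j (e i), h1, h2, fun j i => h3 j (e i), fun i => ?_,
    fun j j' hj hj' => ?_⟩
  · have h6 : ∑ j, w j * v j (e i) = y (e.symm (e i)) := h4 (e i)
    rw [Equiv.symm_apply_apply] at h6
    exact h6
  · rw [Equiv.sum_comp e (fun k => v j k * v j' k)]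
    exact h5 j j' hj hj'

theorem Cov.flip {ι : Type} [Fintype ι] {D : ℝ} {y : ι → ℝ} (ε : ι → ℝ)
    (hε : ∀ i, ε i = 1 ∨ ε i = -1) (h : Cov ι D (fun i => ε i * y i)) : Cov ι D y := by
  obtain ⟨J, hJ, w, v, h1, h2, h3, h4, h5⟩ := h
  have hsq : ∀ i, ε i * ε i = 1 := fun i => by
    rcases hε i with h | h <;> rw [h] <;> norm_num
  refine ⟨J, hJ, w, fun j i => ε i * v j i, h1, h2, fun j i => ?_, fun i => ?_,
    fun j j' hj hj' => ?_⟩
  · show ε i * v j i = 1 ∨ ε i * v j i = -1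
    rcases hε i with h | h <;> rcases h3 j i with h' | h' <;> rw [h, h'] <;> norm_num
  · calc ∑ j, w j * (ε i * v j i) = ε i * ∑ j, w j * v j i := by
          rw [Finset.mul_sum]
          exact Finset.sum_congr rfl fun j _ => by ring
      _ = ε i * (ε i * y i) := by rw [h4 i]
      _ = y i := by rw [← mul_assoc, hsq, one_mul]
  · refine le_trans (h5 j j' hj hj') (le_of_eq ?_)
    refine Finset.sum_congr rfl fun i _ => ?_
    calc v j i * v j' i = (ε i * ε i) * (v j i * v j' i) := by rw [hsq, one_mul]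
      _ = _ := by ring

theorem Cov.of_abs {ι : Type} [Fintype ι] {D : ℝ} {y : ι → ℝ} (h : Cov ι D (fun i => |y i|)) :
    Cov ι D y := by
  apply Cov.flip (fun i => if 0 ≤ y i then 1 else -1)
  · intro i
    split_ifs
    · exact Or.inl rfl
    · exact Or.inr rfl
  · have : (fun i => (if 0 ≤ y i then (1 : ℝ) else -1) * y i) = fun i => |y i| := by
      funext i
      split_ifs with h1
      · rw [abs_of_nonneg h1, one_mul]
      · rw [abs_of_neg (not_le.1 h1)]; ring
    rw [this]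
    exact h

/-- **Products of coverings.** -/
theorem Cov.split {ι : Type} [Fintype ι] (P : ι → Prop) [DecidablePred P] {D D' : ℝ} {y : ι → ℝ}
    (h : Cov {i // P i} D (fun i => y i)) (h' : Cov {i // ¬ P i} D' (fun i => y i)) :
    Cov ι (D + D') y := by
  obtain ⟨J, hJ, w, v, h1, h2, h3, h4, h5⟩ := h
  obtain ⟨J', hJ', w', v', h1', h2', h3', h4', h5'⟩ := h'
  refine ⟨J × J', inferInstance, fun q => w q.1 * w' q.2,
    fun q i => if hi : P i then v q.1 ⟨i, hi⟩ else v' q.2 ⟨i, hi⟩,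
    fun q => mul_nonneg (h1 _) (h1' _), ?_, ?_, ?_, ?_⟩
  · rw [Fintype.sum_prod_type]
    simp only [← Finset.mul_sum, h2', mul_one, h2]
  · intro q i
    beta_reduce
    by_cases hi : P i
    · rw [dif_pos hi]; exact h3 _ _
    · rw [dif_neg hi]; exact h3' _ _
  · intro i
    by_cases hi : P i
    · simp only [dif_pos hi]
      rw [Fintype.sum_prod_type]
      have : ∀ a : J, ∑ b : J', w a * w' b * v a ⟨i, hi⟩ = w a * v a ⟨i, hi⟩ := by
        intro a
        calc ∑ b : J', w a * w' b * v a ⟨i, hi⟩ = (w a * v a ⟨i, hi⟩) * ∑ b : J', w' b := by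
              rw [Finset.mul_sum]
              exact Finset.sum_congr rfl fun b _ => by ring
          _ = _ := by rw [h2', mul_one]
      simp only [this]
      exact h4 ⟨i, hi⟩
    · simp only [dif_neg hi]
      rw [Fintype.sum_prod_type_right]
      have : ∀ b : J', ∑ a : J, w a * w' b * v' b ⟨i, hi⟩ = w' b * v' b ⟨i, hi⟩ := by
        intro b
        calc ∑ a : J, w a * w' b * v' b ⟨i, hi⟩ = (w' b * v' b ⟨i, hi⟩) * ∑ a : J, w a := by
              rw [Finset.mul_sum]
              exact Finset.sum_congr rfl fun a _ => by ring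
          _ = _ := by rw [h2, mul_one]
      simp only [this]
      exact h4' ⟨i, hi⟩
  · rintro ⟨a, b⟩ ⟨a', b'⟩ hj hj'
    have ha : w a ≠ 0 := left_ne_zero_of_mul hj
    have hb : w' b ≠ 0 := right_ne_zero_of_mul hj
    have ha' : w a' ≠ 0 := left_ne_zero_of_mul hj'
    have hb' : w' b' ≠ 0 := right_ne_zero_of_mul hj'
    rw [← Fintype.sum_subtype_add_sum_subtype P]
    have e1 : ∑ i : {i // P i}, (if hi : P i.1 then v a ⟨i.1, hi⟩ else v' b ⟨i.1, hi⟩)
        * (if hi : P i.1 then v a' ⟨i.1, hi⟩ else v' b' ⟨i.1, hi⟩) = ∑ i, v a i * v a' i := by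
      refine Finset.sum_congr rfl fun i _ => ?_
      rw [dif_pos i.2, dif_pos i.2]
    have e2 : ∑ i : {i // ¬ P i}, (if hi : P i.1 then v a ⟨i.1, hi⟩ else v' b ⟨i.1, hi⟩)
        * (if hi : P i.1 then v a' ⟨i.1, hi⟩ else v' b' ⟨i.1, hi⟩) = ∑ i, v' b i * v' b' i := by
      refine Finset.sum_congr rfl fun i _ => ?_
      rw [dif_neg i.2, dif_neg i.2]
    rw [e1, e2]
    linarith [h5 a a' ha ha', h5' b b' hb hb']

theorem cov_of_isEmpty {ι : Type} [Fintype ι] [IsEmpty ι] {D : ℝ} (hD : 0 ≤ D) (y : ι → ℝ) :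
    Cov ι D y := by
  refine ⟨Unit, inferInstance, fun _ => 1, fun _ _ => 1, fun _ => zero_le_one, by simp,
    fun _ _ => Or.inl rfl, fun i => isEmptyElim i, fun _ _ _ _ => ?_⟩
  simp [hD]

/-- From `Cov` to the Vietoris–Rips complex. -/
theorem exists_vr {n : ℕ} {D r : ℝ} (hr : (n : ℝ) / 2 + D / 2 ≤ r) {x : Fin n → ℝ}
    (h : Cov (Fin n) D (fun i => 2 * x i - 1)) : ∃ w ∈ VRReal n r, fmap w = x := by
  classical
  obtain ⟨J, hJ, w, v, h1, h2, h3, h4, h5⟩ := h
  -- the vertex of a sign vector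
  let vx : J → Fin n → Bool := fun j i => decide (v j i = 1)
  have hvx : ∀ j i, sg (vx j) i = v j i := by
    intro j i
    simp only [sg, pt, vx]
    rcases h3 j i with h | h
    · rw [if_pos (by simp [h]), h]; norm_num
    · rw [if_neg (by rw [h]; norm_num), h]; norm_num
  have hpt : ∀ j i, pt (vx j) i = (1 + v j i) / 2 := by
    intro j i
    rw [← hvx]
    unfold sg
    ring
  refine ⟨fun a => ∑ j, if vx j = a then w j else 0, ⟨fun a => ?_, ?_, ?_⟩, ?_⟩
  · exact Finset.sum_nonneg fun j _ => by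
      split_ifs
      · exact h1 j
      · exact le_rfl
  · rw [Finset.sum_comm]
    simp only [Finset.sum_ite_eq, mem_univ, if_true]
    exact h2
  · intro a b ha hb
    obtain ⟨j, -, hj⟩ := Finset.exists_ne_zero_of_sum_ne_zero ha
    obtain ⟨j', -, hj'⟩ := Finset.exists_ne_zero_of_sum_ne_zero hb
    have haj : vx j = a := by
      by_contra hne
      exact hj (if_neg hne)
    have hbj : vx j' = b := by
      by_contra hne
      exact hj' (if_neg hne)
    rw [if_pos haj] at hj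
    rw [if_pos hbj] at hj'
    have h6 := h5 j j' hj hj'
    have h7 : ∑ i, v j i * v j' i = n - 2 * ∑ i, |pt a i - pt b i| := by
      rw [← sum_sg_mul, ← haj, ← hbj]
      refine Finset.sum_congr rfl fun i _ => ?_
      rw [hvx, hvx]
    linarith
  · funext i
    unfold fmap
    simp only [Finset.sum_mul]
    rw [Finset.sum_comm]
    have h6 : ∀ j, ∑ a, (if vx j = a then w j else 0) * pt a i = w j * ((1 + v j i) / 2) := by
      intro j
      simp only [ite_mul, zero_mul, Finset.sum_ite_eq, mem_univ, if_true]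
      rw [hpt]
    simp only [h6]
    have h7 : ∑ j, w j * ((1 + v j i) / 2) = (∑ j, w j + ∑ j, w j * v j i) / 2 := by
      rw [← Finset.sum_add_distrib, Finset.sum_div]
      exact Finset.sum_congr rfl fun j _ => by ring
    rw [h7, h2, h4]
    ring

end Pool.Agent.Helper42.VR
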