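import Mathlib

/-!
# Vietoris–Rips complexes of hypercubes and the map to the cube (MP_678251_co): definitions
-/

set_option autoImplicit false

namespace Pool.Agent.Helper42.VR

/-- The point of `ℝⁿ` corresponding to a vertex of the cube. -/
def pt {n : ℕ} (a : Fin n → Bool) : Fin n → ℝ := fun i => if a i then 1 else 0

/-- The geometric realisation of the closed Vietoris–Rips complex `VR(Q_n; r)` in barycentric
coordinates: nonnegative weights of total mass one on the vertices of the cube whose support is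
a simplex, i.e. has `ℓ¹`-diameter at most `r`. -/
def VRReal (n : ℕ) (r : ℝ) : Set ((Fin n → Bool) → ℝ) :=
  {w | (∀ a, 0 ≤ w a) ∧ ∑ a, w a = 1 ∧
    ∀ a b, w a ≠ 0 → w b ≠ 0 → ∑ i, |pt a i - pt b i| ≤ r}

/-- The map `f_n : VR(Q_n; r) → ℝⁿ`, affine on every simplex, with `f_n (a) = a`. -/
def fmap {n : ℕ} (w : (Fin n → Bool) → ℝ) : Fin n → ℝ := fun i => ∑ a, w a * pt a i

/-- `f_n : VR(Q_n; r) → [0, 1]ⁿ` is surjective. -/
def Surj (n : ℕ) (r : ℝ) : Prop :=
  ∀ x : Fin n → ℝ, (∀ i, 0 ≤ x i ∧ x i ≤ 1) → ∃ w ∈ VRReal n r, fmap w = x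

/-- The center of the cube lies in the image of `f_n`. -/
def CenterCovered (n : ℕ) (r : ℝ) : Prop :=
  ∃ w ∈ VRReal n r, fmap w = fun _ => (1 / 2 : ℝ)

/-- There is a Hadamard matrix of order `N`. -/
def HadamardExists (N : ℕ) : Prop :=
  ∃ H : Matrix (Fin N) (Fin N) ℤ, (∀ i j, H i j = 1 ∨ H i j = -1) ∧
    H * H.transpose = (N : ℤ) • (1 : Matrix (Fin N) (Fin N) ℤ)

/-! ### The sign vectors -/

/-- The sign vector of a vertex. -/
def sg {n : ℕ} (a : Fin n → Bool) : Fin n → ℝ := fun i => 2 * pt a i - 1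

theorem pt_eq {n : ℕ} (a : Fin n → Bool) (i : Fin n) : pt a i = 0 ∨ pt a i = 1 := by
  unfold pt
  by_cases h : a i <;> simp [h]

theorem sg_mul_self {n : ℕ} (a : Fin n → Bool) (i : Fin n) : sg a i * sg a i = 1 := by
  unfold sg
  rcases pt_eq a i with h | h <;> rw [h] <;> norm_num

theorem sg_mul {n : ℕ} (a b : Fin n → Bool) (i : Fin n) :
    sg a i * sg b i = 1 - 2 * |pt a i - pt b i| := by
  unfold sg
  rcases pt_eq a i with h | h <;> rcases pt_eq b i with h' | h' <;> rw [h, h'] <;> norm_num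

theorem sum_sg_mul {n : ℕ} (a b : Fin n → Bool) :
    ∑ i, sg a i * sg b i = n - 2 * ∑ i, |pt a i - pt b i| := by
  simp only [sg_mul]
  rw [Finset.sum_sub_distrib, ← Finset.mul_sum]
  simp

/-- The distances are natural numbers. -/
theorem dist_nat {n : ℕ} (a b : Fin n → Bool) :
    ∑ i, |pt a i - pt b i| = ((Finset.univ.filter (fun i => a i ≠ b i)).card : ℝ) := by
  rw [Finset.card_filter]
  push_cast
  refine Finset.sum_congr rfl fun i _ => ?_
  unfold pt
  cases a i <;> cases b i <;> simp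

theorem sum_sg {n : ℕ} {w : (Fin n → Bool) → ℝ} (h1 : ∑ a, w a = 1)
    (h : fmap w = fun _ => (1 / 2 : ℝ)) (i : Fin n) : ∑ a, w a * sg a i = 0 := by
  have h2 : ∑ a, w a * pt a i = 1 / 2 := congrFun h i
  have h3 : ∑ a, w a * sg a i = 2 * (∑ a, w a * pt a i) - ∑ a, w a := by
    rw [Finset.mul_sum, ← Finset.sum_sub_distrib]
    refine Finset.sum_congr rfl fun a _ => ?_
    unfold sg
    ring
  rw [h3, h2, h1]
  norm_num

/-- **The center is not covered for `r < (n + 1) / 2`.** -/
theorem not_centerCovered {n : ℕ} (hn : 1 ≤ n) {r : ℝ} (hr : r < ((n : ℝ) + 1) / 2) :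
    ¬ CenterCovered n r := by
  rintro ⟨w, ⟨hw0, hw1, hwr⟩, hf⟩
  have hs := sum_sg hw1 hf
  -- some weight is positive
  obtain ⟨u, hu⟩ : ∃ u, w u ≠ 0 := by
    by_contra hcon
    push Not at hcon
    simp [hcon] at hw1
  have hu0 : 0 < w u := lt_of_le_of_ne (hw0 u) (Ne.symm hu)
  have key : ∑ a, w a * ∑ i, sg a i * sg u i = 0 := by
    calc ∑ a, w a * ∑ i, sg a i * sg u i = ∑ i, (∑ a, w a * sg a i) * sg u i := by
          simp only [Finset.mul_sum, Finset.sum_mul]
          rw [Finset.sum_comm]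
          refine Finset.sum_congr rfl fun i _ => Finset.sum_congr rfl fun a _ => ?_
          ring
      _ = 0 := by simp [hs]
  have hnonneg : ∀ a, 0 ≤ w a * ∑ i, sg a i * sg u i := by
    intro a
    by_cases ha : w a = 0
    · simp [ha]
    · apply mul_nonneg (hw0 a)
      rw [sum_sg_mul]
      have h1 := hwr a u ha hu
      rw [dist_nat] at h1 ⊢
      have h2 : ((Finset.univ.filter (fun i => a i ≠ u i)).card : ℝ) < ((n : ℝ) + 1) / 2 :=
        lt_of_le_of_lt h1 hr
      have h3 : 2 * (Finset.univ.filter (fun i => a i ≠ u i)).card < n + 1 := by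
        have : (2 : ℝ) * ((Finset.univ.filter (fun i => a i ≠ u i)).card : ℝ) < n + 1 := by
          linarith
        exact_mod_cast this
      have h4 : (2 : ℝ) * ((Finset.univ.filter (fun i => a i ≠ u i)).card : ℝ) ≤ n := by
        exact_mod_cast (by omega : 2 * (Finset.univ.filter (fun i => a i ≠ u i)).card ≤ n)
      linarith
  have h0 := (Finset.sum_eq_zero_iff_of_nonneg (fun a _ => hnonneg a)).1 key u (Finset.mem_univ u)
  have h5 : ∑ i, sg u i * sg u i = n := by simp [sg_mul_self]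
  rw [h5] at h0
  have hn' : (0 : ℝ) < n := by exact_mod_cast (by omega : 0 < n)
  have := mul_pos hu0 hn'
  linarith

end Pool.Agent.Helper42.VR
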