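import Pool.Agent.Helper42.VR.Sylv
import Pool.Agent.Helper42.VR.Bias

/-!
# `f_n` is surjective for `r ≥ n/2 + O(log n)`
-/

set_option autoImplicit false

namespace Pool.Agent.Helper42.VR

open Finset

theorem pow_aux (h : ℕ) (hh : 32 ≤ h) : 2 * (2 * h + 3) ^ 5 ≤ 2 ^ h := by
  induction h, hh using Nat.le_induction with
  | base => norm_num
  | succ h hh ih =>
    obtain ⟨t, ht⟩ : ∃ t, 2 * h + 3 = 67 + t := ⟨2 * h + 3 - 67, by omega⟩
    have h1 : (69 + t) ^ 5 ≤ 2 * (67 + t) ^ 5 := by
      calc (69 + t) ^ 5 ≤ (69 + t) ^ 5 + (t ^ 5 + 325 * t ^ 4 + 42170 * t ^ 3 + 2730170 * t ^ 2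
            + 88175605 * t + 1136218865) := Nat.le_add_right _ _
        _ = 2 * (67 + t) ^ 5 := by ring
    have h2 : 2 * (h + 1) + 3 = 69 + t := by omega
    rw [h2]
    rw [ht] at ih
    calc 2 * (69 + t) ^ 5 ≤ 2 * (2 * (67 + t) ^ 5) := by omega
      _ ≤ 2 * 2 ^ h := by omega
      _ = 2 ^ (h + 1) := by rw [pow_succ]; ring

theorem pow_aux' (K : ℕ) (hK : 64 ≤ K) : 2 * K * (K + 2) ^ 4 ≤ 2 ^ (K / 2) := by
  have h1 := pow_aux (K / 2) (by omega)
  have h2 : K ≤ 2 * (K / 2) + 3 := by omega
  have h3 : K + 2 ≤ 2 * (K / 2) + 3 := by omega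
  calc 2 * K * (K + 2) ^ 4 ≤ 2 * (2 * (K / 2) + 3) * (2 * (K / 2) + 3) ^ 4 := by gcongr
    _ = 2 * (2 * (K / 2) + 3) ^ 5 := by ring
    _ ≤ _ := h1

theorem pow_aux'' (K : ℕ) (h1 : 26 ≤ K) (h2 : K < 64) : 44 * (K + 2) ^ 4 ≤ 2 ^ (K - 1) := by
  interval_cases K <;> norm_num

/-- **The main covering theorem.** -/
theorem cov_main (K : ℕ) : ∀ (ι : Type) [Fintype ι], Fintype.card ι < 2 ^ K → ∀ y : ι → ℝ,
    (∀ i, |y i| ≤ 1) → Cov ι (556 * K) y := by
  induction K using Nat.strong_induction_on with
  | _ K ih =>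
    intro ι _ hc y hy
    classical
    rcases Nat.eq_zero_or_pos K with hK0 | hKpos
    · subst hK0
      rw [pow_zero, Nat.lt_one_iff, Fintype.card_eq_zero_iff] at hc
      exact cov_of_isEmpty (by simp) y
    have hK1 : (1 : ℝ) ≤ K := by exact_mod_cast hKpos
    have hK2 : (0 : ℝ) < (K : ℝ) + 2 := by positivity
    set δ : ℝ := 2 / ((K : ℝ) + 2) with hδ
    have hδ0 : 0 < δ := by positivity
    have hδ1 : δ ≤ 1 := by rw [hδ, div_le_one hK2]; linarith
    -- the small coordinates
    let P : ι → Prop := fun i => |y i| * ((K : ℝ) + 2) ≤ 2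
    have c1 : Cov {i // P i} K (fun i => y i) := by
      apply cov_small K
      · exact lt_of_le_of_lt (Fintype.card_subtype_le _) hc
      · exact fun i => i.2
    -- the prime
    obtain ⟨p, hpp, hp1, hp2⟩ := Nat.exists_prime_lt_and_le_two_mul (3 * (K + 2) ^ 2)
      (by positivity)
    have : Fact p.Prime := ⟨hpp⟩
    have hp1' : 3 * ((K : ℝ) + 2) ^ 2 < p := by exact_mod_cast hp1
    have hp2' : (p : ℝ) ≤ 2 * (3 * ((K : ℝ) + 2) ^ 2) := by exact_mod_cast hp2
    have hp0 : (0 : ℝ) < p := lt_of_le_of_lt (by positivity) hp1'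
    have hpδ : 12 ≤ p * δ ^ 2 := by
      rw [hδ, div_pow, mul_div_assoc', le_div_iff₀ (by positivity)]
      linarith
    set L : ℝ := 2 * Real.log p + 1 with hL
    have hp_one : (1 : ℝ) ≤ p := by nlinarith
    have hL0 : 0 ≤ L := by
      have := Real.log_nonneg hp_one
      linarith
    obtain ⟨n, hn⟩ : ∃ n, Fintype.card {i // ¬ P i} = n := ⟨_, rfl⟩
    have hn0 : (0 : ℝ) ≤ n := by positivity
    have hyδ : ∀ i : {i // ¬ P i}, δ ≤ |y i| ∧ |y i| ≤ 1 := by
      intro i
      refine ⟨?_, hy i⟩
      have h1 := i.2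
      simp only [P, not_le] at h1
      rw [hδ, div_le_iff₀ hK2]
      exact h1.le
    -- bounds of the logarithm
    have hLlog : ∀ j : ℕ, (p : ℝ) ≤ 2 ^ j → L ≤ 2 * (j * 0.6931471808) + 1 := by
      intro j hj
      have h1 : Real.log p ≤ Real.log (2 ^ j) := Real.log_le_log hp0 hj
      rw [Real.log_pow] at h1
      have h2 : (j : ℝ) * Real.log 2 ≤ j * 0.6931471808 := by
        gcongr
        exact Real.log_two_lt_d9.le
      rw [hL]
      linarith
    by_cases hK26 : K < 26
    · -- small `K`
      have hK25 : (K : ℝ) ≤ 25 := by exact_mod_cast (by omega : K ≤ 25)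
      have hp13 : (p : ℝ) ≤ 2 ^ 13 := by
        have : ((K : ℝ) + 2) ^ 2 ≤ 27 ^ 2 := by gcongr; linarith
        have h65 : (2 : ℝ) * (3 * 27 ^ 2) ≤ 2 ^ 13 := by norm_num
        linarith
      have hL19 : L ≤ 19.03 := by
        have := hLlog 13 hp13
        push_cast at this
        linarith
      have c2 : Cov {i // ¬ P i} (L * ((K : ℝ) + 2) ^ 2) (fun i => y i) := by
        apply cov_large hn hδ0 hδ1 hpδ (fun i => y i) hyδ (by positivity)
        rw [← hL]
        set A : ℝ := n * δ ^ 2 / 2 with hA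
        set B : ℝ := L * ((K : ℝ) + 2) ^ 2 with hB
        have hAB : A * B = 2 * n * L := by
          rw [hA, hB, hδ]
          field_simp
        have hA0 : 0 ≤ A := by positivity
        have hB0 : 0 ≤ B := by positivity
        have h1 : Real.sqrt (2 * n * L) ≤ (A + B) / 2 := by
          rw [Real.sqrt_le_left (by positivity), ← hAB]
          nlinarith [sq_nonneg (A - B)]
        linarith
      refine (Cov.split P c1 c2).mono ?_
      have h2 : L * ((K : ℝ) + 2) ^ 2 ≤ 19.03 * (29.16 * K) := by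
        have h3 : ((K : ℝ) + 2) ^ 2 ≤ 29.16 * K := by nlinarith
        have h4 : 0 ≤ ((K : ℝ) + 2) ^ 2 := by positivity
        calc L * ((K : ℝ) + 2) ^ 2 ≤ 19.03 * ((K : ℝ) + 2) ^ 2 := by gcongr
          _ ≤ _ := by gcongr
      linarith
    · -- large `K`
      have hK26' : 26 ≤ K := by omega
      obtain ⟨K', hK'1, hK'2, hK'3⟩ : ∃ K' : ℕ, K' < K ∧ 2 * L * ((K : ℝ) + 2) ^ 4 ≤ 2 ^ K' ∧
          (K : ℝ) + 556 * K' ≤ 556 * K := by
        by_cases hK64 : K < 64
        · refine ⟨K - 1, by omega, ?_, ?_⟩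
          · have hK63 : (K : ℝ) ≤ 63 := by exact_mod_cast (by omega : K ≤ 63)
            have hp15 : (p : ℝ) ≤ 2 ^ 15 := by
              have : ((K : ℝ) + 2) ^ 2 ≤ 65 ^ 2 := by gcongr; linarith
              have h65 : (2 : ℝ) * (3 * 65 ^ 2) ≤ 2 ^ 15 := by norm_num
              linarith
            have hL22 : L ≤ 22 := by
              have := hLlog 15 hp15
              push_cast at this
              linarith
            have h3 : ((44 * (K + 2) ^ 4 : ℕ) : ℝ) ≤ ((2 ^ (K - 1) : ℕ) : ℝ) := by
              exact_mod_cast pow_aux'' K hK26' hK64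
            push_cast at h3
            refine le_trans ?_ h3
            have : 2 * L ≤ 44 := by linarith
            gcongr
          · rw [Nat.cast_sub (by omega)]
            have hK63 : (K : ℝ) ≤ 63 := by exact_mod_cast (by omega : K ≤ 63)
            push_cast
            linarith
        · have hK64' : 64 ≤ K := by omega
          have hK64r : (64 : ℝ) ≤ K := by exact_mod_cast hK64'
          refine ⟨K / 2, by omega, ?_, ?_⟩
          · have hLK : L ≤ K := by
              have h1 : Real.log p ≤ Real.log (2 ^ 3 * (2 ^ 4 * (((K : ℝ) + 2) / 16)) ^ 2) := by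
                apply Real.log_le_log hp0
                have : (2 : ℝ) ^ 4 * (((K : ℝ) + 2) / 16) = K + 2 := by ring
                rw [this]
                nlinarith [sq_nonneg ((K : ℝ) + 2)]
              have hpos : 0 < ((K : ℝ) + 2) / 16 := by positivity
              rw [Real.log_mul (by norm_num) (by positivity), Real.log_pow, Real.log_pow,
                Real.log_mul (by norm_num) hpos.ne', Real.log_pow] at h1
              have h2 := Real.log_two_lt_d9
              have h3 := Real.log_le_sub_one_of_pos hpos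
              push_cast at h1
              rw [hL]
              linarith
            have h3 : ((2 * K * (K + 2) ^ 4 : ℕ) : ℝ) ≤ ((2 ^ (K / 2) : ℕ) : ℝ) := by
              exact_mod_cast pow_aux' K hK64'
            push_cast at h3
            refine le_trans ?_ h3
            gcongr
          · have h4 : ((K / 2 : ℕ) : ℝ) ≤ (K : ℝ) / 2 := Nat.cast_div_le
            linarith
      by_cases hnL : 2 * L * ((K : ℝ) + 2) ^ 4 ≤ n
      · have c2 : Cov {i // ¬ P i} 0 (fun i => y i) := by
          apply cov_large hn hδ0 hδ1 hpδ (fun i => y i) hyδ le_rfl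
          rw [← hL]
          have h1 : Real.sqrt (2 * n * L) ≤ n * δ ^ 2 / 4 := by
            rw [Real.sqrt_le_left (by positivity)]
            have h2 : (n * δ ^ 2 / 4) ^ 2 = n * (n / ((K : ℝ) + 2) ^ 4) := by
              rw [hδ]
              field_simp
              ring
            have h3 : 2 * L ≤ n / ((K : ℝ) + 2) ^ 4 := by
              rw [le_div_iff₀ (by positivity)]
              exact hnL
            rw [h2]
            calc 2 * n * L = n * (2 * L) := by ring
              _ ≤ _ := by gcongr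
          linarith
        refine (Cov.split P c1 c2).mono ?_
        linarith
      · push Not at hnL
        have hn' : n < 2 ^ K' := by
          have h2 : (n : ℝ) < ((2 ^ K' : ℕ) : ℝ) := by
            push_cast
            linarith
          exact_mod_cast h2
        have c2 : Cov {i // ¬ P i} (556 * (K' : ℝ)) (fun i => y i) :=
          ih K' hK'1 {i // ¬ P i} (by rw [hn]; exact hn') (fun i => y i) (fun i => hy i)
        refine (Cov.split P c1 c2).mono ?_
        linarith

/-- **Surjectivity for `r ≥ n/2 + O(log n)`.** -/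
theorem surj_of_log {n : ℕ} {r : ℝ}
    (hr : (n : ℝ) / 2 + 278 * ((Nat.log 2 n : ℝ) + 1) ≤ r) : Surj n r := by
  intro x hx
  apply exists_vr (D := 556 * ((Nat.log 2 n + 1 : ℕ) : ℝ))
  · push_cast
    linarith
  · apply cov_main (Nat.log 2 n + 1)
    · rw [Fintype.card_fin]
      exact Nat.lt_pow_succ_log_self (by norm_num) n
    · intro i
      rw [abs_le]
      constructor <;> linarith [(hx i).1, (hx i).2]

/-- The same with a natural logarithm. -/
theorem surj_of_le {n : ℕ} (hn : 1 ≤ n) {r : ℝ}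
    (hr : (n : ℝ) / 2 + 810 * Real.log (n + 1) ≤ r) : Surj n r := by
  apply surj_of_log
  refine le_trans ?_ hr
  have hn' : (1 : ℝ) ≤ n := by exact_mod_cast hn
  have h1 : ((2 : ℝ) ^ (Nat.log 2 n)) ≤ n := by
    exact_mod_cast Nat.pow_log_le_self 2 (by omega)
  have h2 : (Nat.log 2 n : ℝ) * Real.log 2 ≤ Real.log n := by
    rw [← Real.log_pow]
    exact Real.log_le_log (by positivity) h1
  have h3 := Real.log_two_gt_d9
  have h4 : Real.log 2 + Real.log n ≤ 2 * Real.log (n + 1) := by
    rw [← Real.log_mul (by norm_num) (by linarith)]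
    have : (2 : ℝ) * Real.log (n + 1) = Real.log ((n + 1) ^ 2) := by
      rw [Real.log_pow]; norm_num
    rw [this]
    apply Real.log_le_log (by linarith)
    nlinarith
  have h5 : ((Nat.log 2 n : ℝ) + 1) * 0.6931 ≤ 2 * Real.log (n + 1) := by
    have h6 : ((Nat.log 2 n : ℝ) + 1) * 0.6931 ≤ ((Nat.log 2 n : ℝ) + 1) * Real.log 2 := by
      gcongr
      linarith
    linarith
  linarith

end Pool.Agent.Helper42.VR
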