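import Pool.Agent.Helper42.VR.Cov

/-!
# Sylvester blocks

The rows of the Sylvester matrix of order `2 ^ k`, without the first column and with arbitrary
signs, have pairwise inner products at least `-1`; their hulls contain all points of the cube
`[-1, 1]^(2 ^ k - 1)` with coordinates of absolute value at most `2 / (k + 2)`.
-/

set_option autoImplicit false

namespace Pool.Agent.Helper42.VR

open Finset

/-- The index type of the Sylvester matrix of order `2 ^ k`. -/
def T : ℕ → Type
  | 0 => Unit
  | k + 1 => T k ⊕ T k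

instance instFintypeT : (k : ℕ) → Fintype (T k)
  | 0 => inferInstanceAs (Fintype Unit)
  | k + 1 => by
      letI := instFintypeT k
      exact inferInstanceAs (Fintype (T k ⊕ T k))

instance instDecEqT : (k : ℕ) → DecidableEq (T k)
  | 0 => inferInstanceAs (DecidableEq Unit)
  | k + 1 => by
      letI := instDecEqT k
      exact inferInstanceAs (DecidableEq (T k ⊕ T k))

/-- The distinguished index. -/
def z0 : (k : ℕ) → T k
  | 0 => ()
  | k + 1 => Sum.inl (z0 k)

/-- The Sylvester matrix. -/
def had : (k : ℕ) → T k → T k → ℝ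
  | 0, _, _ => 1
  | k + 1, Sum.inl a, Sum.inl x => had k a x
  | k + 1, Sum.inl a, Sum.inr x => had k a x
  | k + 1, Sum.inr a, Sum.inl x => had k a x
  | k + 1, Sum.inr a, Sum.inr x => -had k a x

theorem sum_T_succ (k : ℕ) (F : T (k + 1) → ℝ) :
    ∑ x, F x = ∑ x : T k, F (Sum.inl x) + ∑ x : T k, F (Sum.inr x) :=
  Fintype.sum_sum_type F

theorem had_ll (k : ℕ) (a x : T k) : had (k + 1) (Sum.inl a) (Sum.inl x) = had k a x := rfl
theorem had_lr (k : ℕ) (a x : T k) : had (k + 1) (Sum.inl a) (Sum.inr x) = had k a x := rfl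
theorem had_rl (k : ℕ) (a x : T k) : had (k + 1) (Sum.inr a) (Sum.inl x) = had k a x := rfl
theorem had_rr (k : ℕ) (a x : T k) : had (k + 1) (Sum.inr a) (Sum.inr x) = -had k a x := rfl

theorem card_T : ∀ k, Fintype.card (T k) = 2 ^ k
  | 0 => rfl
  | k + 1 => by
      have h : Fintype.card (T (k + 1)) = Fintype.card (T k) + Fintype.card (T k) :=
        Fintype.card_sum
      rw [h, card_T k, pow_succ]
      ring

theorem had_sign : ∀ (k : ℕ) (a x : T k), had k a x = 1 ∨ had k a x = -1
  | 0, _, _ => Or.inl rfl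
  | k + 1, Sum.inl a, Sum.inl x => had_sign k a x
  | k + 1, Sum.inl a, Sum.inr x => had_sign k a x
  | k + 1, Sum.inr a, Sum.inl x => had_sign k a x
  | k + 1, Sum.inr a, Sum.inr x => by
      rw [had_rr]
      rcases had_sign k a x with h | h
      · right; rw [h]
      · left; rw [h]; norm_num

theorem had_comm : ∀ (k : ℕ) (a x : T k), had k a x = had k x a
  | 0, _, _ => rfl
  | k + 1, Sum.inl a, Sum.inl x => had_comm k a x
  | k + 1, Sum.inl a, Sum.inr x => had_comm k a x
  | k + 1, Sum.inr a, Sum.inl x => had_comm k a x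
  | k + 1, Sum.inr a, Sum.inr x => by rw [had_rr, had_rr, had_comm k a x]

theorem had_z0 : ∀ (k : ℕ) (a : T k), had k a (z0 k) = 1
  | 0, _ => rfl
  | k + 1, Sum.inl a => had_z0 k a
  | k + 1, Sum.inr a => had_z0 k a

/-- Orthogonality of the rows. -/
theorem had_orth : ∀ (k : ℕ) (a b : T k),
    ∑ x, had k a x * had k b x = if a = b then (2 : ℝ) ^ k else 0
  | 0, a, b => by
      have : a = b := by cases a; cases b; rfl
      rw [if_pos this]
      have h : ∑ x : T 0, had 0 a x * had 0 b x = ∑ _x : Unit, (1 : ℝ) * 1 := rfl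
      rw [h]; simp
  | k + 1, Sum.inl a, Sum.inl b => by
      rw [sum_T_succ]
      simp only [had_ll, had_lr]
      rw [had_orth k a b]
      by_cases h : a = b
      · rw [if_pos h, if_pos (by rw [h])]; ring
      · have h2 : ¬ ((Sum.inl a : T (k + 1)) = Sum.inl b) := fun h' => h (Sum.inl_injective h')
        rw [if_neg h]
        exact Eq.trans (add_zero 0) (Eq.symm (if_neg h2))
  | k + 1, Sum.inl a, Sum.inr b => by
      rw [sum_T_succ]
      simp only [had_ll, had_lr, had_rl, had_rr]
      rw [if_neg (by exact Sum.inl_ne_inr)]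
      simp only [mul_neg, Finset.sum_neg_distrib]
      ring
  | k + 1, Sum.inr a, Sum.inl b => by
      rw [sum_T_succ]
      simp only [had_ll, had_lr, had_rl, had_rr]
      rw [if_neg (by exact Sum.inr_ne_inl)]
      simp only [neg_mul, Finset.sum_neg_distrib]
      ring
  | k + 1, Sum.inr a, Sum.inr b => by
      rw [sum_T_succ]
      simp only [had_rl, had_rr, neg_mul_neg]
      rw [had_orth k a b]
      by_cases h : a = b
      · rw [if_pos h, if_pos (by rw [h])]; ring
      · have h2 : ¬ ((Sum.inr a : T (k + 1)) = Sum.inr b) := fun h' => h (Sum.inr_injective h')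
        rw [if_neg h]
        exact Eq.trans (add_zero 0) (Eq.symm (if_neg h2))

/-- The transform of a function. -/
noncomputable def hat (k : ℕ) (F : T k → ℝ) (a : T k) : ℝ := ∑ x, F x * had k a x

theorem hat_inl (k : ℕ) (F : T (k + 1) → ℝ) (a : T k) :
    hat (k + 1) F (Sum.inl a) = hat k (fun x => F (Sum.inl x)) a
      + hat k (fun x => F (Sum.inr x)) a := by
  unfold hat
  rw [sum_T_succ]
  simp only [had_ll, had_lr]

theorem hat_inr (k : ℕ) (F : T (k + 1) → ℝ) (a : T k) :
    hat (k + 1) F (Sum.inr a) = hat k (fun x => F (Sum.inl x)) a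
      - hat k (fun x => F (Sum.inr x)) a := by
  unfold hat
  rw [sum_T_succ]
  simp only [had_rl, had_rr, mul_neg, Finset.sum_neg_distrib]
  ring

/-- The inversion formula. -/
theorem hat_inv (k : ℕ) (F : T k → ℝ) (x : T k) :
    ∑ a, hat k F a * had k a x = 2 ^ k * F x := by
  unfold hat
  simp only [Finset.sum_mul]
  rw [Finset.sum_comm]
  have h : ∀ y : T k, ∑ a, F y * had k a y * had k a x = F y * (if y = x then (2 : ℝ) ^ k else 0) := by
    intro y
    rw [← had_orth k y x, Finset.mul_sum]
    refine Finset.sum_congr rfl fun a _ => ?_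
    rw [had_comm k a y, had_comm k a x]
    ring
  simp only [h, mul_ite, mul_zero, Finset.sum_ite_eq', mem_univ, if_true]
  ring

/-- Functions that are sorted increasingly, with values between `lo` and `hi`. -/
def Srt : (k : ℕ) → (T k → ℝ) → ℝ → ℝ → Prop
  | 0, F, lo, hi => lo ≤ F () ∧ F () ≤ hi
  | k + 1, F, lo, hi => ∃ c, Srt k (fun x => F (Sum.inl x)) lo c ∧
      Srt k (fun x => F (Sum.inr x)) c hi

theorem Srt.bounds : ∀ (k : ℕ) (F : T k → ℝ) (lo hi : ℝ), Srt k F lo hi →
    lo ≤ hi ∧ ∀ x, lo ≤ F x ∧ F x ≤ hi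
  | 0, F, lo, hi, h => ⟨h.1.trans h.2, fun x => by cases x; exact h⟩
  | k + 1, F, lo, hi, ⟨c, h1, h2⟩ => by
      have b1 := Srt.bounds k _ _ _ h1
      have b2 := Srt.bounds k _ _ _ h2
      refine ⟨b1.1.trans b2.1, fun x => ?_⟩
      rcases x with x | x
      · exact ⟨(b1.2 x).1, (b1.2 x).2.trans b2.1⟩
      · exact ⟨b1.1.trans (b2.2 x).1, (b2.2 x).2⟩

theorem hat_z0 (k : ℕ) (F : T k → ℝ) : hat k F (z0 k) = ∑ x, F x := by
  unfold hat
  refine Finset.sum_congr rfl fun x _ => ?_
  rw [had_comm, had_z0, mul_one]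

/-- **The spectral norm of a sorted function.** -/
theorem Srt.spectral : ∀ (k : ℕ) (F : T k → ℝ) (lo hi : ℝ), Srt k F lo hi →
    ∑ a, |hat k F a| - |hat k F (z0 k)| ≤ 2 ^ k * (k / 2) * (hi - lo)
  | 0, F, lo, hi, h => by
      have : ∑ a : T 0, |hat 0 F a| = ∑ a : Unit, |hat 0 F a| := rfl
      rw [this]
      have h2 : ∑ a : Unit, |hat 0 F a| = |hat 0 F (z0 0)| := by
        simp only [Finset.univ_unique, Finset.sum_singleton]
        rfl
      rw [h2]
      simp
  | k + 1, F, lo, hi, ⟨c, h1, h2⟩ => by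
      have s1 := Srt.spectral k _ _ _ h1
      have s2 := Srt.spectral k _ _ _ h2
      have b1 := Srt.bounds k _ _ _ h1
      have b2 := Srt.bounds k _ _ _ h2
      set p := hat k (fun x => F (Sum.inl x)) with hp
      set q := hat k (fun x => F (Sum.inr x)) with hq
      have e1 : ∑ a, |hat (k + 1) F a| = ∑ a : T k, (|p a + q a| + |p a - q a|) := by
        rw [sum_T_succ]
        simp only [hat_inl, hat_inr]
        rw [← Finset.sum_add_distrib]
      have e2 : hat (k + 1) F (z0 (k + 1)) = p (z0 k) + q (z0 k) := hat_inl k F (z0 k)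
      have hle : ∀ a : T k, |p a + q a| + |p a - q a| ≤ 2 * (|p a| + |q a|) := by
        intro a
        have := abs_add_le (p a) (q a)
        have := abs_sub (p a) (q a)
        linarith
      -- the slack at the distinguished index
      have e3 : ∑ a : T k, (|p a + q a| + |p a - q a|)
          ≤ ∑ a : T k, 2 * (|p a| + |q a|) - (2 * (|p (z0 k)| + |q (z0 k)|)
            - (|p (z0 k) + q (z0 k)| + |p (z0 k) - q (z0 k)|)) := by
        have h3 := Finset.single_le_sum (f := fun a : T k => 2 * (|p a| + |q a|)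
          - (|p a + q a| + |p a - q a|)) (fun a _ => by
            have := hle a
            linarith) (mem_univ (z0 k))
        rw [Finset.sum_sub_distrib] at h3
        linarith
      have e4 : ∑ a : T k, 2 * (|p a| + |q a|) = 2 * ∑ a, |p a| + 2 * ∑ a, |q a| := by
        rw [← Finset.mul_sum, Finset.sum_add_distrib]; ring
      -- the difference of the averages
      have e5 : |p (z0 k) - q (z0 k)| ≤ 2 ^ k * (hi - lo) := by
        rw [hp, hq, hat_z0, hat_z0, abs_sub_comm, ← Finset.sum_sub_distrib]
        have h4 : ∀ x : T k, |F (Sum.inr x) - F (Sum.inl x)| ≤ hi - lo := by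
          intro x
          have l1 := b1.2 x
          have l2 := b2.2 x
          rw [abs_of_nonneg (by linarith)]
          linarith
        calc |∑ x : T k, (F (Sum.inr x) - F (Sum.inl x))|
            ≤ ∑ x : T k, |F (Sum.inr x) - F (Sum.inl x)| := Finset.abs_sum_le_sum_abs _ _
          _ ≤ ∑ _x : T k, (hi - lo) := Finset.sum_le_sum fun x _ => h4 x
          _ = 2 ^ k * (hi - lo) := by
              rw [Finset.sum_const, Finset.card_univ, card_T, nsmul_eq_mul]
              push_cast
              ring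
      rw [e1, e2]
      have e6 : (2 : ℝ) ^ (k + 1) * (((k + 1 : ℕ) : ℝ) / 2) * (hi - lo)
          = 2 * (2 ^ k * (k / 2) * (c - lo)) + 2 * (2 ^ k * (k / 2) * (hi - c))
            + 2 ^ k * (hi - lo) := by
        push_cast
        ring
      rw [e6]
      linarith

/-! ### The arrangement -/

/-- Initial segments. -/
theorem exists_initial {κ : Type} [Fintype κ] [DecidableEq κ] (F : κ → ℝ) (κ0 : κ)
    (h0 : ∀ x, F κ0 ≤ F x) (m : ℕ) : m + 1 ≤ Fintype.card κ →
    ∃ A : Finset κ, A.card = m + 1 ∧ κ0 ∈ A ∧ ∀ x ∈ A, ∀ y, y ∉ A → F x ≤ F y := by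
  induction m with
  | zero =>
    intro _
    refine ⟨{κ0}, by simp, by simp, fun x hx y _ => ?_⟩
    rw [mem_singleton.1 hx]
    exact h0 y
  | succ m ih =>
    intro hm
    obtain ⟨A, hA, hA0, hAF⟩ := ih (by omega)
    have hne : (Aᶜ).Nonempty := by
      rw [← Finset.card_pos, Finset.card_compl]
      omega
    obtain ⟨y0, hy0, hmin⟩ := Finset.exists_min_image Aᶜ F hne
    rw [Finset.mem_compl] at hy0
    refine ⟨insert y0 A, by rw [card_insert_of_notMem hy0, hA], mem_insert_of_mem hA0,
      fun x hx y hy => ?_⟩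
    rw [mem_insert, not_or] at hy
    rcases mem_insert.1 hx with rfl | hx
    · exact hmin y (Finset.mem_compl.2 hy.2)
    · exact hAF x hx y hy.2

/-- Every function on a set with `2 ^ k` elements can be sorted. -/
theorem exists_sort : ∀ (k : ℕ) (κ : Type) [Fintype κ] [DecidableEq κ],
    Fintype.card κ = 2 ^ k → ∀ (F : κ → ℝ) (lo hi : ℝ), (∀ x, lo ≤ F x) → (∀ x, F x ≤ hi) →
    ∀ κ0 : κ, (∀ x, F κ0 ≤ F x) → ∃ e : κ ≃ T k, Srt k (fun t => F (e.symm t)) lo hi ∧
      e κ0 = z0 k
  | 0, κ, _, _, hc, F, lo, hi, hlo, hhi, κ0, _ => by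
      have e : κ ≃ Unit := Fintype.equivOfCardEq (by rw [hc]; rfl)
      exact ⟨e, ⟨hlo _, hhi _⟩, rfl⟩
  | k + 1, κ, _, _, hc, F, lo, hi, hlo, hhi, κ0, h0 => by
      have hpos : 1 ≤ 2 ^ k := Nat.one_le_two_pow
      have hc' : Fintype.card κ = 2 ^ k + 2 ^ k := by rw [hc, pow_succ]; ring
      obtain ⟨A, hA, hA0, hAF⟩ := exists_initial F κ0 h0 (2 ^ k - 1) (by omega)
      have hA' : A.card = 2 ^ k := by omega
      have hB' : (Aᶜ).card = 2 ^ k := by rw [Finset.card_compl]; omega
      obtain ⟨xm, hxm, hxmax⟩ := Finset.exists_max_image A F ⟨κ0, hA0⟩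
      obtain ⟨ym, hym, hymin⟩ := Finset.exists_min_image Aᶜ F (by
        rw [← Finset.card_pos, hB']; exact hpos)
      have hcA : Fintype.card {x // x ∈ A} = 2 ^ k := by rw [Fintype.card_coe, hA']
      have hcB : Fintype.card {x // ¬ x ∈ A} = 2 ^ k := by
        rw [Fintype.card_subtype_compl, Fintype.card_coe, hA']
        omega
      obtain ⟨e1, s1, z1⟩ := exists_sort k {x // x ∈ A} hcA (fun x => F x) lo (F xm)
        (fun x => hlo x) (fun x => hxmax x x.2) ⟨κ0, hA0⟩ (fun x => h0 x)
      obtain ⟨e2, s2, -⟩ := exists_sort k {x // ¬ x ∈ A} hcB (fun x => F x) (F xm) hi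
        (fun x => hAF xm hxm x x.2) (fun x => hhi x) ⟨ym, Finset.mem_compl.1 hym⟩
        (fun x => hymin x (Finset.mem_compl.2 x.2))
      let e : κ ≃ T k ⊕ T k := (Equiv.sumCompl (fun x => x ∈ A)).symm.trans (Equiv.sumCongr e1 e2)
      refine ⟨e, ⟨F xm, ?_, ?_⟩, ?_⟩
      · exact s1
      · exact s2
      · have h1 : e κ0 = Sum.inl (e1 ⟨κ0, hA0⟩) := by
          simp only [e, Equiv.trans_apply]
          rw [Equiv.sumCompl_symm_apply_of_pos hA0]
          rfl
        exact h1.trans (congrArg Sum.inl z1)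

/-! ### The block lemma -/

/-- **One Sylvester block.** -/
theorem cov_block (k : ℕ) (ι : Type) [Fintype ι] (hcard : Fintype.card ι + 1 = 2 ^ k)
    (y : ι → ℝ) (hy : ∀ i, |y i| * ((k : ℝ) + 2) ≤ 2) : Cov ι 1 y := by
  classical
  apply Cov.of_abs
  -- the extension by zero
  let F : Option ι → ℝ := fun o => o.elim 0 (fun i => |y i|)
  have hk : (0 : ℝ) < (k : ℝ) + 2 := by positivity
  set h : ℝ := 2 / ((k : ℝ) + 2) with hh
  have hlo : ∀ o, 0 ≤ F o := by
    intro o
    cases o with
    | none => exact le_rfl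
    | some i => exact abs_nonneg _
  have hhi : ∀ o, F o ≤ h := by
    intro o
    cases o with
    | none => simp only [F, Option.elim]; positivity
    | some i =>
      simp only [F, Option.elim]
      rw [hh, le_div_iff₀ hk]
      exact hy i
  obtain ⟨e, hs, he⟩ := exists_sort k (Option ι) (by rw [Fintype.card_option, hcard]) F 0 h hlo hhi
    none (fun o => by
      have := hlo o
      exact this)
  set f : T k → ℝ := fun t => F (e.symm t) with hf
  have hspec := Srt.spectral k f 0 h hs
  have hM : (0 : ℝ) < 2 ^ k := by positivity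
  -- the bound of the spectral norm
  have hz : |hat k f (z0 k)| ≤ 2 ^ k * h := by
    rw [hat_z0]
    calc |∑ x, f x| ≤ ∑ x, |f x| := Finset.abs_sum_le_sum_abs _ _
      _ ≤ ∑ _x : T k, h := by
          refine Finset.sum_le_sum fun x _ => ?_
          rw [abs_of_nonneg (hlo _)]
          exact hhi _
      _ = 2 ^ k * h := by
          rw [Finset.sum_const, Finset.card_univ, card_T, nsmul_eq_mul]
          push_cast
          ring
  have hnorm : ∑ a, |hat k f a| ≤ 2 ^ k := by
    have h1 : (2 : ℝ) ^ k * (k / 2) * (h - 0) + 2 ^ k * h = 2 ^ k := by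
      rw [hh]
      field_simp
      ring
    linarith
  -- the coefficients
  let c : ℝ → T k → ℝ := fun l a => hat k f a / 2 ^ k + l
  let φ : ℝ → ℝ := fun l => ∑ a, |c l a|
  have hφcont : Continuous φ := by
    apply continuous_finsetSum
    intro a _
    exact (continuous_const.add continuous_id).abs
  have hφ0 : φ 0 ≤ 1 := by
    have : φ 0 = (∑ a, |hat k f a|) / 2 ^ k := by
      simp only [φ, c, add_zero]
      rw [Finset.sum_div]
      refine Finset.sum_congr rfl fun a _ => ?_
      rw [abs_div, abs_of_pos hM]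
    rw [this, div_le_one hM]
    exact hnorm
  have hφ2 : 1 ≤ φ 2 := by
    have h1 : ∀ a, 2 - |c 0 a| ≤ |c 2 a| := by
      intro a
      have h2 : c 2 a = c 0 a + 2 := by simp only [c]; ring
      rw [h2]
      have h3 := neg_abs_le (c 0 a)
      have h4 := le_abs_self (c 0 a + 2)
      linarith
    have h5 : ∑ a : T k, (2 - |c 0 a|) ≤ φ 2 := Finset.sum_le_sum fun a _ => h1 a
    rw [Finset.sum_sub_distrib, Finset.sum_const, Finset.card_univ, card_T, nsmul_eq_mul] at h5
    have h6 : (1 : ℝ) ≤ 2 ^ k := one_le_pow₀ (by norm_num)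
    have h7 : ∑ a, |c 0 a| ≤ 1 := hφ0
    push_cast at h5
    linarith
  obtain ⟨l, -, hl⟩ := intermediate_value_Icc (by norm_num : (0 : ℝ) ≤ 2) hφcont.continuousOn
    ⟨hφ0, hφ2⟩
  -- the signs
  let s : T k → ℝ := fun a => if 0 ≤ c l a then 1 else -1
  have hs1 : ∀ a, s a = 1 ∨ s a = -1 := by
    intro a
    simp only [s]
    split_ifs
    · exact Or.inl rfl
    · exact Or.inr rfl
  have hsc : ∀ a, |c l a| * s a = c l a := by
    intro a
    simp only [s]
    split_ifs with h1
    · rw [abs_of_nonneg h1, mul_one]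
    · rw [abs_of_neg (not_le.1 h1)]; ring
  have hsum : ∀ a b : T k, ∑ i : ι, had k a (e (some i)) * had k b (e (some i))
      = (if a = b then (2 : ℝ) ^ k else 0) - 1 := by
    intro a b
    have h1 : ∑ o : Option ι, had k a (e o) * had k b (e o) = ∑ x, had k a x * had k b x :=
      Equiv.sum_comp e (fun x => had k a x * had k b x)
    rw [Fintype.sum_option, he, had_z0, had_z0, had_orth] at h1
    linarith
  refine ⟨T k, inferInstance, fun a => |c l a|, fun a i => s a * had k a (e (some i)),
    fun a => abs_nonneg _, hl, fun a i => ?_, fun i => ?_, fun a b _ _ => ?_⟩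
  · show s a * had k a (e (some i)) = 1 ∨ s a * had k a (e (some i)) = -1
    rcases hs1 a with h1 | h1 <;> rcases had_sign k a (e (some i)) with h2 | h2 <;>
      rw [h1, h2] <;> norm_num
  · have hne : e (some i) ≠ z0 k := by
      rw [← he]
      intro h1
      exact Option.some_ne_none i (e.injective h1)
    have h0 : ∑ a, had k a (e (some i)) = 0 := by
      have h1 := had_orth k (e (some i)) (z0 k)
      rw [if_neg hne] at h1
      rw [← h1]
      refine Finset.sum_congr rfl fun a _ => ?_
      rw [had_comm k a, had_comm k (z0 k) a, had_z0, mul_one]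
    calc ∑ a, |c l a| * (s a * had k a (e (some i)))
        = ∑ a, c l a * had k a (e (some i)) := by
          refine Finset.sum_congr rfl fun a _ => ?_
          rw [← mul_assoc, hsc]
      _ = (∑ a, hat k f a * had k a (e (some i))) / 2 ^ k + l * ∑ a, had k a (e (some i)) := by
          simp only [c]
          rw [Finset.mul_sum, Finset.sum_div, ← Finset.sum_add_distrib]
          refine Finset.sum_congr rfl fun a _ => ?_
          ring
      _ = |y i| := by
          rw [h0, hat_inv, mul_zero, add_zero, mul_div_cancel_left₀ _ hM.ne']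
          simp only [hf, Equiv.symm_apply_apply]
          rfl
  · have h1 : ∑ i, s a * had k a (e (some i)) * (s b * had k b (e (some i)))
        = s a * s b * ((if a = b then (2 : ℝ) ^ k else 0) - 1) := by
      rw [← hsum, Finset.mul_sum]
      refine Finset.sum_congr rfl fun i _ => ?_
      ring
    rw [h1]
    by_cases hab : a = b
    · subst hab
      rw [if_pos rfl]
      have h6 : (1 : ℝ) ≤ 2 ^ k := one_le_pow₀ (by norm_num)
      rcases hs1 a with h2 | h2 <;> rw [h2] <;> nlinarith
    · rw [if_neg hab]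
      rcases hs1 a with h2 | h2 <;> rcases hs1 b with h3 | h3 <;> rw [h2, h3] <;> norm_num

/-- **Coordinates of small absolute value**: at most `K` blocks. -/
theorem cov_small (K : ℕ) : ∀ (ι : Type) [Fintype ι], Fintype.card ι < 2 ^ K → ∀ y : ι → ℝ,
    (∀ i, |y i| * ((K : ℝ) + 2) ≤ 2) → Cov ι K y := by
  induction K with
  | zero =>
    intro ι _ hc y _
    rw [pow_zero, Nat.lt_one_iff, Fintype.card_eq_zero_iff] at hc
    exact cov_of_isEmpty (by simp) y
  | succ K ih =>
    intro ι _ hc y hy
    classical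
    have hy' : ∀ i, |y i| * ((K : ℝ) + 2) ≤ 2 := by
      intro i
      have h1 := hy i
      push_cast at h1
      nlinarith [abs_nonneg (y i)]
    by_cases h1 : Fintype.card ι + 1 = 2 ^ (K + 1)
    · refine (cov_block (K + 1) ι h1 y hy).mono ?_
      push_cast
      have : (0 : ℝ) ≤ K := by positivity
      linarith
    · by_cases h2 : Fintype.card ι < 2 ^ K
      · refine (ih ι h2 y hy').mono ?_
        push_cast
        linarith
      · have hpos : 1 ≤ 2 ^ K := Nat.one_le_two_pow
        rw [pow_succ] at hc h1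
        obtain ⟨A, hAsub, hA⟩ := Finset.exists_subset_card_eq
          (show 2 ^ K - 1 ≤ (univ : Finset ι).card by rw [Finset.card_univ]; omega)
        have hcA : Fintype.card {i // i ∈ A} + 1 = 2 ^ K := by
          rw [Fintype.card_coe, hA]; omega
        have hcB : Fintype.card {i // ¬ i ∈ A} < 2 ^ K := by
          rw [Fintype.card_subtype_compl, Fintype.card_coe, hA]
          omega
        have c1 := cov_block K {i // i ∈ A} hcA (fun i => y i) (fun i => hy' i)
        have c2 := ih {i // ¬ i ∈ A} hcB (fun i => y i) (fun i => hy' i)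
        refine (Cov.split (fun i => i ∈ A) (D := 1) (D' := K) (Cov.inst _ _ c1)
          (Cov.inst _ _ c2)).mono ?_
        push_cast
        linarith

end Pool.Agent.Helper42.VR
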