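import Pool.Agent.Helper42.VR.Sylv
import Pool.Agent.Helper42.VR.Bias

/-!
# Points with many coordinates away from the center
-/

set_option autoImplicit false

namespace Pool.Agent.Helper42.VR

open Finset

/-- **Biased coordinates**, with positive inner products: if all coordinates of `y` have absolute
value at least `δ`, then `y` is covered with inner products at least
`n δ² / 2 - 2 √(2 n (2 log p + 1))`, for any prime `p ≥ 12 / δ²`; the bound `D` may be
negative. -/
theorem cov_large_neg {κ : Type} [Fintype κ] {n p : ℕ} [Fact p.Prime]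
    (hκ : Fintype.card κ = n) {δ : ℝ} (hδ0 : 0 < δ) (hδ1 : δ ≤ 1) (hp : 12 ≤ p * δ ^ 2)
    (hn : 1 ≤ n) (y : κ → ℝ) (hy : ∀ i, δ ≤ |y i| ∧ |y i| ≤ 1) {D : ℝ}
    (hD : 2 * Real.sqrt (2 * n * (2 * Real.log p + 1)) - n * δ ^ 2 / 2 ≤ D) : Cov κ D y := by
  classical
  apply Cov.of_abs
  have hδ2 : δ ^ 2 ≤ δ := by nlinarith
  have hp12 : (12 : ℝ) ≤ p := by
    have hp0 : (0 : ℝ) ≤ p := by positivity
    nlinarith
  have hp3 : 12 ≤ p := by exact_mod_cast hp12
  have hp0 : (0 : ℝ) < p := by linarith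
  let x : κ → ℝ := fun i => (1 + |y i|) / 2
  have hx0 : ∀ i, 0 ≤ x i := fun i => by
    simp only [x]
    have := abs_nonneg (y i)
    linarith
  have hx1 : ∀ i, x i ≤ 1 := fun i => by simp only [x]; linarith [(hy i).2]
  -- the integer and the fractional parts
  have hex : ∀ i, ∃ a : ℕ, a < p ∧ (a : ℝ) ≤ p * x i ∧ (p : ℝ) * x i ≤ a + 1 := by
    intro i
    by_cases h1 : x i = 1
    · refine ⟨p - 1, by omega, ?_, ?_⟩
      · rw [h1, Nat.cast_sub (by omega)]; norm_num
      · rw [h1, Nat.cast_sub (by omega)]; norm_num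
    · have h2 : x i < 1 := lt_of_le_of_ne (hx1 i) h1
      have h3 : 0 ≤ (p : ℝ) * x i := mul_nonneg hp0.le (hx0 i)
      refine ⟨⌊(p : ℝ) * x i⌋₊, ?_, Nat.floor_le h3, (Nat.lt_floor_add_one _).le⟩
      rw [Nat.floor_lt h3]
      nlinarith
  choose a ha1 ha2 ha3 using hex
  have hab : ∀ i, (p : ℝ) * δ - 1 ≤ 2 * a i - p + 1 := by
    intro i
    have h1 := ha3 i
    have h2 : (p : ℝ) * δ ≤ p * |y i| := by
      apply mul_le_mul_of_nonneg_left (hy i).1 hp0.le
    have h3 : (p : ℝ) * x i = (p + p * |y i|) / 2 := by simp only [x]; ring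
    linarith
  obtain ⟨t, ht⟩ := exists_good hκ hδ0 hδ1 hp hn a ha1 hab
  let θ : κ → ℝ := fun i => p * x i - a i
  have hθ0 : ∀ i, 0 ≤ θ i := fun i => by simp only [θ]; linarith [ha2 i]
  have hθ1 : ∀ i, θ i ≤ 1 := fun i => by simp only [θ]; linarith [ha3 i]
  let z : ZMod p → κ → ℝ := fun s i => zc (a i) (θ i) (af (t i) s)
  have hz : ∀ s i, 0 ≤ z s i ∧ z s i ≤ 1 := fun s i => zc_mem (a i) (hθ0 i) (hθ1 i) _
  have hzsum : ∀ i, ∑ s, z s i = p * x i := by
    intro i
    have h1 : ∑ s, z s i = ∑ u : ZMod p, zc (a i) (θ i) u := by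
      simp only [z]
      exact Equiv.sum_comp (afE (t i)) (fun u => zc (a i) (θ i) u)
    rw [h1, sum_zc (a i) (ha1 i)]
    simp only [θ]
    ring
  refine ⟨ZMod p × (κ → Bool), inferInstance, fun j => (1 / p : ℝ) * pw (z j.1) j.2,
    fun j i => 2 * (if j.2 i then 1 else 0) - 1, ?_, ?_, ?_, ?_, ?_⟩
  · intro j
    exact mul_nonneg (by positivity) (pw_nonneg (hz j.1) j.2)
  · rw [Fintype.sum_prod_type]
    simp only [← Finset.mul_sum, sum_pw, Finset.sum_const, Finset.card_univ, ZMod.card]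
    simp only [nsmul_eq_mul, mul_one]
    field_simp
  · intro j i
    show 2 * (if j.2 i = true then (1 : ℝ) else 0) - 1 = 1 ∨
      2 * (if j.2 i = true then (1 : ℝ) else 0) - 1 = -1
    split_ifs
    · left; norm_num
    · right; norm_num
  · intro i
    rw [Fintype.sum_prod_type]
    have h1 : ∀ s : ZMod p, ∑ b : κ → Bool, (1 / p : ℝ) * pw (z s) b
        * (2 * (if b i then 1 else 0) - 1) = (1 / p : ℝ) * (2 * z s i - 1) := by
      intro s
      have e1 : ∑ b : κ → Bool, (1 / p : ℝ) * pw (z s) b * (2 * (if b i then 1 else 0) - 1)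
          = (1 / p : ℝ) * (2 * ∑ b, pw (z s) b * (if b i then 1 else 0) - ∑ b, pw (z s) b) := by
        rw [Finset.mul_sum, ← Finset.sum_sub_distrib, Finset.mul_sum]
        refine Finset.sum_congr rfl fun b _ => ?_
        ring
      rw [e1, sum_pw_mul, sum_pw]
    simp only [h1]
    rw [← Finset.mul_sum, Finset.sum_sub_distrib, ← Finset.mul_sum, hzsum, Finset.sum_const,
      Finset.card_univ, ZMod.card]
    simp only [nsmul_eq_mul, mul_one, x]
    field_simp
    ring
  · rintro ⟨s, u⟩ ⟨s', v⟩ hu hv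
    have hs : pw (z s) u ≠ 0 := right_ne_zero_of_mul hu
    have hs' : pw (z s') v ≠ 0 := right_ne_zero_of_mul hv
    -- a value of `z` away from the critical one
    have hlow : ∀ (σ : ZMod p) (y : κ → Bool) (i : κ), pw (z σ) y ≠ 0 →
        (af (t i) σ).val < a i → y i = true := by
      intro σ y i hy hlt
      apply (pw_ne_zero hy i).1
      simp only [z, zc]
      rw [if_pos hlt]
    have hhigh : ∀ (σ : ZMod p) (y : κ → Bool) (i : κ), pw (z σ) y ≠ 0 →
        a i < (af (t i) σ).val → y i = false := by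
      intro σ y i hy hlt
      apply (pw_ne_zero hy i).2
      simp only [z, zc]
      rw [if_neg (by omega), if_neg (by omega)]
    -- a second index
    obtain ⟨s'', hne, hagree⟩ : ∃ s'', s ≠ s'' ∧
        ∀ i, Good (a i) (af (t i) s) (af (t i) s'') → u i = v i := by
      by_cases hss : s = s'
      · obtain ⟨s'', h1⟩ : ∃ s'' : ZMod p, s ≠ s'' := by
          refine ⟨s + 1, fun h => ?_⟩
          have h2 : (1 : ZMod p) = 0 := by
            have h3 : s + 0 = s + 1 := by rw [add_zero]; exact h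
            exact (add_left_cancel h3).symm
          have : Fact (1 < p) := ⟨by omega⟩
          exact one_ne_zero h2
        refine ⟨s'', h1, ?_⟩
        rintro i (⟨h2, -⟩ | ⟨h2, -⟩)
        · rw [hlow s u i hs h2, hlow s' v i hs' (hss ▸ h2)]
        · rw [hhigh s u i hs h2, hhigh s' v i hs' (hss ▸ h2)]
      · refine ⟨s', hss, ?_⟩
        rintro i (⟨h2, h3⟩ | ⟨h2, h3⟩)
        · rw [hlow s u i hs h2, hlow s' v i hs' h3]
        · rw [hhigh s u i hs h2, hhigh s' v i hs' h3]
    have h1 := ht s s'' hne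
    -- the inner product is twice the number of agreements minus `n`
    have h2 : ∀ i, (if Good (a i) (af (t i) s) (af (t i) s'') then (2 : ℝ) else 0) - 1
        ≤ (2 * (if u i then 1 else 0) - 1) * (2 * (if v i then 1 else 0) - 1) := by
      intro i
      by_cases hg : Good (a i) (af (t i) s) (af (t i) s'')
      · rw [if_pos hg, hagree i hg]
        split_ifs <;> norm_num
      · rw [if_neg hg]
        split_ifs <;> norm_num
    have h3 : ∑ i, ((if Good (a i) (af (t i) s) (af (t i) s'') then (2 : ℝ) else 0) - 1)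
        = 2 * ((univ.filter (fun i => Good (a i) (af (t i) s) (af (t i) s''))).card : ℝ) - n := by
      rw [Finset.sum_sub_distrib, Finset.sum_const, Finset.card_univ, hκ, Finset.sum_ite,
        Finset.sum_const_zero, add_zero, Finset.sum_const]
      simp only [nsmul_eq_mul, mul_one]
      ring
    have h4 := Finset.sum_le_sum (fun i (_ : i ∈ (univ : Finset κ)) => h2 i)
    rw [h3] at h4
    beta_reduce
    linarith


/-- **Many biased coordinates.** -/
theorem exists_of_many {n : ℕ} {t r : ℝ} (ht : t = (Nat.log 2 n : ℝ) + 3) {x : Fin n → ℝ}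
    (hx : ∀ i, 0 ≤ x i ∧ x i ≤ 1) {m : ℕ}
    (hm : (univ.filter (fun i => 2 / t < |2 * x i - 1|)).card = m)
    (hmt : 40 * t ^ 4 * (1 + Real.log t) ≤ m) (hr : (n : ℝ) / 2 - m / (4 * t ^ 2) ≤ r) :
    ∃ w ∈ VRReal n r, fmap w = x := by
  classical
  set K : ℕ := Nat.log 2 n + 1 with hK
  have htK : t = (K : ℝ) + 2 := by rw [ht, hK]; push_cast; ring
  have hK1 : (1 : ℝ) ≤ K := by exact_mod_cast (by omega : 1 ≤ K)
  have ht3 : 3 ≤ t := by rw [htK]; linarith
  have ht0 : 0 < t := by linarith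
  have hlog0 : 0 ≤ Real.log t := Real.log_nonneg (by linarith)
  have hmpos : (0 : ℝ) < m := lt_of_lt_of_le (by positivity) hmt
  have hm1 : 1 ≤ m := by exact_mod_cast hmpos
  set δ : ℝ := 2 / t with hδ
  have hδ0 : 0 < δ := by positivity
  have hδ1 : δ ≤ 1 := by rw [hδ, div_le_one ht0]; linarith
  set y : Fin n → ℝ := fun i => 2 * x i - 1 with hy
  have hy1 : ∀ i, |y i| ≤ 1 := by
    intro i
    rw [abs_le]
    simp only [hy]
    constructor <;> linarith [(hx i).1, (hx i).2]
  let P : Fin n → Prop := fun i => |y i| * ((K : ℝ) + 2) ≤ 2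
  have hP : ∀ i, ¬ P i ↔ 2 / t < |2 * x i - 1| := by
    intro i
    simp only [P, not_le, hy]
    rw [← htK, div_lt_iff₀ ht0]
  have c1 : Cov {i // P i} K (fun i => y i) := by
    apply cov_small K
    · refine lt_of_le_of_lt (Fintype.card_subtype_le _) ?_
      rw [Fintype.card_fin]
      exact Nat.lt_pow_succ_log_self (by norm_num) n
    · exact fun i => i.2
  have hcard : Fintype.card {i // ¬ P i} = m := by
    rw [Fintype.card_subtype, ← hm]
    congr 1
    ext i
    simp only [mem_filter, mem_univ, true_and]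
    exact hP i
  -- the prime
  obtain ⟨p, hpp, hp1, hp2⟩ := Nat.exists_prime_lt_and_le_two_mul (3 * (K + 2) ^ 2)
    (by positivity)
  have : Fact p.Prime := ⟨hpp⟩
  have hp1' : 3 * t ^ 2 < p := by rw [htK]; exact_mod_cast hp1
  have hp2' : (p : ℝ) ≤ 2 * (3 * t ^ 2) := by rw [htK]; exact_mod_cast hp2
  have hp0 : (0 : ℝ) < p := lt_of_le_of_lt (by positivity) hp1'
  have hpδ : 12 ≤ p * δ ^ 2 := by
    rw [hδ, div_pow, mul_div_assoc', le_div_iff₀ (by positivity)]
    linarith
  set L : ℝ := 2 * Real.log p + 1 with hL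
  have hL8 : 8 * L ≤ 40 * (1 + Real.log t) := by
    have h1 : Real.log p ≤ Real.log (2 ^ 3 * ((3 / 4) * t ^ 2)) := by
      apply Real.log_le_log hp0
      linarith
    rw [Real.log_mul (by norm_num) (by positivity), Real.log_mul (by norm_num) (by positivity),
      Real.log_pow, Real.log_pow] at h1
    have h2 := Real.log_two_lt_d9
    have h3 := Real.log_le_sub_one_of_pos (show (0 : ℝ) < 3 / 4 by norm_num)
    push_cast at h1
    rw [hL]
    linarith
  have hyδ : ∀ i : {i // ¬ P i}, δ ≤ |y i| ∧ |y i| ≤ 1 := by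
    intro i
    exact ⟨((hP i).1 i.2).le, hy1 i⟩
  have c2 : Cov {i // ¬ P i} (-(m / t ^ 2)) (fun i => y i) := by
    apply cov_large_neg hcard hδ0 hδ1 hpδ hm1 (fun i => y i) hyδ
    rw [← hL]
    have h1 : Real.sqrt (2 * m * L) ≤ m / (2 * t ^ 2) := by
      rw [Real.sqrt_le_left (by positivity)]
      have h2 : (m / (2 * t ^ 2)) ^ 2 = m * (m / (4 * t ^ 4)) := by
        field_simp
        ring
      have h3 : 2 * L ≤ m / (4 * t ^ 4) := by
        rw [le_div_iff₀ (by positivity)]
        calc 2 * L * (4 * t ^ 4) = (8 * L) * t ^ 4 := by ring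
          _ ≤ (40 * (1 + Real.log t)) * t ^ 4 := by gcongr
          _ = 40 * t ^ 4 * (1 + Real.log t) := by ring
          _ ≤ m := hmt
      rw [h2]
      calc 2 * m * L = m * (2 * L) := by ring
        _ ≤ _ := by gcongr
    have h4 : (m : ℝ) * δ ^ 2 / 2 = 2 * (m / t ^ 2) := by
      rw [hδ]
      field_simp
    have h5 : (m : ℝ) / (2 * t ^ 2) = (m / t ^ 2) / 2 := by
      field_simp
    rw [h4]
    rw [h5] at h1
    linarith
  have hKm : (K : ℝ) ≤ m / (2 * t ^ 2) := by
    rw [le_div_iff₀ (by positivity)]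
    have h1 : (K : ℝ) ≤ t := by rw [htK]; linarith
    have h2 : 40 * t ^ 4 ≤ 40 * t ^ 4 * (1 + Real.log t) := by
      have : 0 < 40 * t ^ 4 := by positivity
      nlinarith
    have h3 : (K : ℝ) * (2 * t ^ 2) ≤ t * (2 * t ^ 2) := by gcongr
    have h4 : t * (2 * t ^ 2) ≤ 40 * t ^ 4 := by
      have : 0 ≤ t ^ 3 := by positivity
      nlinarith
    linarith
  apply exists_vr (D := -(m / (2 * t ^ 2)))
  · have : (n : ℝ) / 2 + -(m / (2 * t ^ 2)) / 2 = (n : ℝ) / 2 - m / (4 * t ^ 2) := by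
      field_simp
      ring
    rw [this]
    exact hr
  · refine (Cov.split P c1 c2).mono ?_
    have : (m : ℝ) / (2 * t ^ 2) = (m / t ^ 2) / 2 := by field_simp
    rw [this] at hKm ⊢
    linarith

end Pool.Agent.Helper42.VR
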